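import Pool.Agent.H84.GA.FTB
import Pool.Agent.H84.GA.BIA

/-!
Rows BID, FTY: derivatives and Fourier transform of the bump functions.
-/

set_option autoImplicit false

namespace Pool.Agent.H84.GA

open MeasureTheory Pool.Agent.H34.GM Pool.Agent.H34.GU Pool.Agent.H34.GA
open Pool.Agent.H34.GZ hiding eu eu2 cf

namespace BS

open FD BD

/-- scaling of Cayley's operator -/
lemma dD_scale {m : ℕ} {h : Mat m → ℂ}
    (hs : ContDiff ℝ ((⊤ : ℕ∞) : WithTop ℕ∞) fun z : V m => h (mt z)) (a : ℝ) (z : V m) :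
    dD (fun z : Mat m => h (a • (z - 1))) (mt z) = (a : ℂ) ^ m * dD h (a • (mt z - 1)) := by
  unfold dD
  rw [Finset.mul_sum]
  apply Finset.sum_congr rfl
  intro σ _
  have h1 : (fun w : V m => (fun z : Mat m => h (a • (z - 1))) (mt w)) =
      fun z : V m => ((fun z : V m => h (mt z)) ∘ (a • ContinuousLinearMap.id ℝ (V m)))
        (z - oneV m) := by
    funext w
    rfl
  have h2 : iteratedFDeriv ℝ m (fun w : V m => (fun z : Mat m => h (a • (z - 1))) (mt w))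
      (fun i j => mt z i j) (fun i => ev i (σ i)) = (a : ℂ) ^ m *
      iteratedFDeriv ℝ m (fun w : V m => h (mt w)) (fun i j => (a • (mt z - 1)) i j)
        (fun i => ev i (σ i)) := by
    rw [h1, iteratedFDeriv_comp_sub,
      (a • ContinuousLinearMap.id ℝ (V m)).iteratedFDeriv_comp_right hs _
      (by exact_mod_cast le_top), ContinuousMultilinearMap.compContinuousLinearMap_apply]
    have h3 : (fun i : Fin m => (a • ContinuousLinearMap.id ℝ (V m)) (ev i (σ i))) =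
        fun i : Fin m => a • (ev i (σ i) : V m) := by
      funext i
      rfl
    rw [h3, ContinuousMultilinearMap.map_smul_univ, Finset.prod_const, Finset.card_univ,
      Fintype.card_fin, Complex.real_smul]
    push_cast
    rfl
  rw [h2]
  ring

lemma dD_smul {m : ℕ} {h : Mat m → ℂ}
    (hs : ContDiff ℝ ((⊤ : ℕ∞) : WithTop ℕ∞) fun z : V m => h (mt z)) (a : ℂ) (z : V m) :
    dD (fun z : Mat m => a * h z) (mt z) = a * dD h (mt z) := by
  unfold dD
  rw [Finset.mul_sum]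
  apply Finset.sum_congr rfl
  intro σ _
  have h1 : (fun w : V m => (fun z : Mat m => a * h z) (mt w)) =
      a • fun z : V m => h (mt z) := by
    funext w
    rfl
  have h2 : iteratedFDeriv ℝ m (fun w : V m => (fun z : Mat m => a * h z) (mt w))
      (fun i j => mt z i j) (fun i => ev i (σ i)) = a *
      iteratedFDeriv ℝ m (fun w : V m => h (mt w)) (fun i j => mt z i j)
        (fun i => ev i (σ i)) := by
    rw [h1, iteratedFDeriv_const_smul_apply]
    · rfl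
    · exact (hs.of_le (by exact_mod_cast le_top)).contDiffAt
  rw [h2]
  ring

/-- the model bump function on the matrices -/
noncomputable def B1 (m : ℕ) (χ : ℝ → ℝ) (y : Mat m) : ℂ := b1 m χ (fun i j => y i j)

lemma it_sm {m : ℕ} {h : Mat m → ℂ}
    (hs : ContDiff ℝ ((⊤ : ℕ∞) : WithTop ℕ∞) fun z : V m => h (mt z)) (l : ℕ) :
    ContDiff ℝ ((⊤ : ℕ∞) : WithTop ℕ∞) fun z : V m => (dD^[l] h) (mt z) := by
  induction l with
  | zero => exact hs
  | succ l ih =>
    simp only [Function.iterate_succ_apply']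
    exact dD_smooth ih

lemma it_scale {m : ℕ} {h : Mat m → ℂ}
    (hs : ContDiff ℝ ((⊤ : ℕ∞) : WithTop ℕ∞) fun z : V m => h (mt z)) (a : ℝ) (l : ℕ) :
    dD^[l] (fun z : Mat m => h (a • (z - 1))) =
      fun z : Mat m => ((a : ℂ) ^ m) ^ l * (dD^[l] h) (a • (z - 1)) := by
  induction l with
  | zero =>
    funext z
    simp
  | succ l ih =>
    rw [Function.iterate_succ_apply', ih, Function.iterate_succ_apply']
    funext z
    have h0 : ContDiff ℝ ((⊤ : ℕ∞) : WithTop ℕ∞)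
        fun z : V m => (fun z : Mat m => (dD^[l] h) (a • (z - 1))) (mt z) := by
      have h1 : (fun z : V m => (fun z : Mat m => (dD^[l] h) (a • (z - 1))) (mt z)) =
        fun z : V m => (fun z : V m => (dD^[l] h) (mt z)) (a • (z - oneV m)) := by
        funext z
        rfl
      rw [h1]
      apply (it_sm hs l).comp
      fun_prop
    have h2 := dD_smul (h := fun z : Mat m => (dD^[l] h) (a • (z - 1))) h0
      (((a : ℂ) ^ m) ^ l) (z : V m)
    have h3 := dD_scale (it_sm hs l) a (z : V m)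
    calc dD (fun z : Mat m => ((a : ℂ) ^ m) ^ l * (dD^[l] h) (a • (z - 1))) z
        = ((a : ℂ) ^ m) ^ l * dD (fun z : Mat m => (dD^[l] h) (a • (z - 1))) z := h2
      _ = ((a : ℂ) ^ m) ^ l * ((a : ℂ) ^ m * dD (dD^[l] h) (a • (z - 1))) := by
          have h4 : dD (fun z : Mat m => (dD^[l] h) (a • (z - 1))) z =
            (a : ℂ) ^ m * dD (dD^[l] h) (a • (z - 1)) := h3
          rw [h4]
      _ = ((a : ℂ) ^ m) ^ (l + 1) * dD (dD^[l] h) (a • (z - 1)) := by
          rw [pow_succ]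
          ring

lemma bi_fun {m : ℕ} (χ : ℝ → ℝ) {δ : ℝ} (hδ : 0 < δ) :
    bi m χ δ = fun z : Mat m => B1 m χ (δ⁻¹ • (z - 1)) := by
  funext z
  exact bi_eq χ hδ (z : V m)

lemma B1_sm {m : ℕ} {χ : ℝ → ℝ} (hχ : Prof χ) :
    ContDiff ℝ ((⊤ : ℕ∞) : WithTop ℕ∞) fun z : V m => B1 m χ (mt z) := b1_smooth hχ

lemma B1_it {m : ℕ} {χ : ℝ → ℝ} (hχ : Prof χ) (l : ℕ) {z : V m}
    (hz : (dD^[l] (B1 m χ)) (mt z) ≠ 0) : ‖z‖ ≤ 1 := by
  have h1 := it_supp (Φ := B1 m χ) l {z : V m | ‖z‖ ≤ 1}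
    (isClosed_le continuous_norm continuous_const) (fun z hz => b1_supp hχ hz) z hz
  exact h1

lemma B1_cs {m : ℕ} {χ : ℝ → ℝ} (hχ : Prof χ) (l : ℕ) :
    HasCompactSupport fun z : V m => (dD^[l] (B1 m χ)) (mt z) := by
  apply HasCompactSupport.intro (isCompact_closedBall (0 : V m) 1)
  intro z hz
  by_contra hn
  apply hz
  rw [mem_closedBall_zero_iff]
  exact B1_it hχ l hn

end BS

open BS BD in
theorem pf_BID : T_BID := by
  intro m χ l hm hχ
  have hsm := it_sm (B1_sm (m := m) hχ) l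
  have hcs := B1_cs (m := m) hχ l
  obtain ⟨C1, hC1⟩ := hsm.continuous.bounded_above_of_compact_support hcs
  have hfd : Continuous (fderiv ℝ fun z : V m => (dD^[l] (B1 m χ)) (mt z)) :=
    hsm.continuous_fderiv (by simp)
  have hfs : HasCompactSupport (fderiv ℝ fun z : V m => (dD^[l] (B1 m χ)) (mt z)) :=
    hcs.fderiv (𝕜 := ℝ)
  obtain ⟨C2, hC2⟩ := hfd.bounded_above_of_compact_support hfs
  have hC20 : 0 ≤ C2 := (norm_nonneg _).trans (hC2 0)
  have hC10 : 0 ≤ C1 := (norm_nonneg _).trans (hC1 0)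
  refine ⟨C1 + 2 * C2 + 1, m * l + 1, by positivity, ?_⟩
  intro δ hδ hδ2
  suffices H : ∀ z : V m, ‖(dD^[l] (bi m χ δ)) (mt z)‖ ≤
      (C1 + 2 * C2 + 1) * δ⁻¹ ^ (m * l + 1) ∧ ‖eu (dD^[l] (bi m χ δ)) (mt z)‖ ≤
      (C1 + 2 * C2 + 1) * δ⁻¹ ^ (m * l + 1) from fun z => H z
  intro z
  have hδi : 1 ≤ δ⁻¹ := by
    rw [one_le_inv₀ hδ]
    linarith
  have hfun := it_scale (B1_sm (m := m) hχ) δ⁻¹ l
  rw [← bi_fun χ hδ] at hfun
  have hnp : ‖(((δ⁻¹ : ℝ) : ℂ) ^ m) ^ l‖ = δ⁻¹ ^ (m * l) := by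
    rw [norm_pow, norm_pow, Complex.norm_real, Real.norm_of_nonneg (by positivity), pow_mul]
  have hp1 : δ⁻¹ ^ (m * l) ≤ δ⁻¹ ^ (m * l + 1) := pow_le_pow_right₀ hδi (Nat.le_succ _)
  constructor
  · rw [hfun]
    show ‖(((δ⁻¹ : ℝ) : ℂ) ^ m) ^ l * (dD^[l] (B1 m χ)) (δ⁻¹ • (mt z - 1))‖ ≤ _
    rw [norm_mul, hnp]
    have h1 : ‖(dD^[l] (B1 m χ)) (δ⁻¹ • (mt z - 1))‖ ≤ C1 := hC1 _
    calc δ⁻¹ ^ (m * l) * ‖(dD^[l] (B1 m χ)) (δ⁻¹ • (mt z - 1))‖
        ≤ δ⁻¹ ^ (m * l + 1) * C1 := mul_le_mul hp1 h1 (norm_nonneg _) (by positivity)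
      _ ≤ (C1 + 2 * C2 + 1) * δ⁻¹ ^ (m * l + 1) := by
          rw [mul_comm]
          apply mul_le_mul_of_nonneg_right _ (by positivity)
          linarith
  · have hsb : ContDiff ℝ ((⊤ : ℕ∞) : WithTop ℕ∞)
        fun z : V m => (dD^[l] (bi m χ δ)) (mt z) := it_sm (bi_smooth hχ hδ) l
    have he : eu (dD^[l] (bi m χ δ)) (mt z) =
        fderiv ℝ (fun z : V m => (dD^[l] (bi m χ δ)) (mt z)) z z := TE.eu_eq hsb z
    rw [he]
    have hK : HasFDerivAt (fun z : V m => (dD^[l] (B1 m χ)) (mt z))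
        (fderiv ℝ (fun z : V m => (dD^[l] (B1 m χ)) (mt z)) (δ⁻¹ • (z - oneV m)))
        (δ⁻¹ • (z - oneV m)) := ((hsm.differentiable (by simp)) _).hasFDerivAt
    have hA : HasFDerivAt (fun z : V m => δ⁻¹ • (z - oneV m))
        (δ⁻¹ • ContinuousLinearMap.id ℝ (V m)) z := by
      have := ((hasFDerivAt_id (𝕜 := ℝ) z).sub_const (oneV m)).const_smul δ⁻¹
      exact this
    have hcomp := (hK.comp z hA).const_mul ((((δ⁻¹ : ℝ) : ℂ) ^ m) ^ l)
    have hfe : (fun z : V m => (dD^[l] (bi m χ δ)) (mt z)) = fun y : V m =>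
        (((δ⁻¹ : ℝ) : ℂ) ^ m) ^ l * ((fun z : V m => (dD^[l] (B1 m χ)) (mt z)) ∘
          fun z : V m => δ⁻¹ • (z - oneV m)) y := by
      funext y
      rw [hfun]
      rfl
    rw [hfe, hcomp.fderiv]
    show ‖(((δ⁻¹ : ℝ) : ℂ) ^ m) ^ l * (fderiv ℝ (fun z : V m => (dD^[l] (B1 m χ)) (mt z))
      (δ⁻¹ • (z - oneV m)) (δ⁻¹ • z))‖ ≤ _
    rw [norm_mul, hnp]
    by_cases hz : ‖z‖ ≤ 2
    · have h1 : ‖fderiv ℝ (fun z : V m => (dD^[l] (B1 m χ)) (mt z))
          (δ⁻¹ • (z - oneV m)) (δ⁻¹ • z)‖ ≤ C2 * (δ⁻¹ * 2) := by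
        refine (ContinuousLinearMap.le_opNorm _ _).trans ?_
        apply mul_le_mul (hC2 _) _ (norm_nonneg _) hC20
        rw [norm_smul, Real.norm_of_nonneg (by positivity)]
        exact mul_le_mul_of_nonneg_left hz (by positivity)
      calc δ⁻¹ ^ (m * l) * ‖fderiv ℝ (fun z : V m => (dD^[l] (B1 m χ)) (mt z))
              (δ⁻¹ • (z - oneV m)) (δ⁻¹ • z)‖
          ≤ δ⁻¹ ^ (m * l) * (C2 * (δ⁻¹ * 2)) := mul_le_mul_of_nonneg_left h1 (by positivity)
        _ = 2 * C2 * δ⁻¹ ^ (m * l + 1) := by rw [pow_succ]; ring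
        _ ≤ (C1 + 2 * C2 + 1) * δ⁻¹ ^ (m * l + 1) := by
            apply mul_le_mul_of_nonneg_right _ (by positivity)
            linarith
    · have h0 : fderiv ℝ (fun z : V m => (dD^[l] (B1 m χ)) (mt z))
          (δ⁻¹ • (z - oneV m)) = 0 := by
        by_contra hn
        have h3 : (δ⁻¹ • (z - oneV m)) ∈
            tsupport (fun z : V m => (dD^[l] (B1 m χ)) (mt z)) := by
          by_contra hn2
          exact hn (fderiv_of_notMem_tsupport (𝕜 := ℝ) hn2)
        have h4 : tsupport (fun z : V m => (dD^[l] (B1 m χ)) (mt z)) ⊆ {y : V m | ‖y‖ ≤ 1} := by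
          apply closure_minimal
          · intro y hy
            exact B1_it hχ l hy
          · exact isClosed_le continuous_norm continuous_const
        have h5 : ‖δ⁻¹ • (z - oneV m)‖ ≤ 1 := h4 h3
        rw [norm_smul, Real.norm_of_nonneg (inv_nonneg.2 hδ.le), inv_mul_le_iff₀ hδ,
          mul_one] at h5
        apply hz
        have h6 : ‖z‖ ≤ ‖z - oneV m‖ + ‖oneV m‖ := by
          have := norm_add_le (z - oneV m) (oneV m)
          rwa [sub_add_cancel] at this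
        have := oneV_norm (m := m)
        linarith
      rw [h0]
      simp only [ContinuousLinearMap.zero_apply, norm_zero, mul_zero]
      positivity

end Pool.Agent.H84.GA
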