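import Pool.Agent.H84.GA.TEU

/-!
Rows FDD and ZAD.
-/

set_option autoImplicit false

namespace Pool.Agent.H84.GA

open MeasureTheory Pool.Agent.H34.GM Pool.Agent.H34.GU Pool.Agent.H34.GA
open Pool.Agent.H34.GZ hiding eu eu2 cf

namespace FE

open FD

lemma sum_ev {m : ℕ} (z : V m) : z = ∑ i, ∑ j, z i j • (ev i j : V m) := by
  funext a b
  simp only [Finset.sum_apply, Pi.smul_apply, smul_eq_mul, ev]
  rw [Finset.sum_eq_single a]
  · rw [Finset.sum_eq_single b]
    · simp
    · intro c _ hc
      simp [Ne.symm hc]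
    · intro h; exact absurd (Finset.mem_univ _) h
  · intro c _ hc
    apply Finset.sum_eq_zero
    intro d _
    simp [Ne.symm hc]
  · intro h; exact absurd (Finset.mem_univ _) h

lemma lin_sum {m : ℕ} (L : V m →L[ℝ] ℂ) (z : V m) :
    L z = ∑ i, ∑ j, ((z i j : ℝ) : ℂ) * L (ev i j) := by
  conv_lhs => rw [sum_ev z]
  rw [map_sum]
  apply Finset.sum_congr rfl
  intro i _
  rw [map_sum]
  apply Finset.sum_congr rfl
  intro j _
  rw [map_smul]
  exact Complex.real_smul

/-- one coordinate -/
lemma coord {m : ℕ} (w : Mat m) {g : V m → ℂ}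
    (hg : ContDiff ℝ ((⊤ : ℕ∞) : WithTop ℕ∞) g) (hc : HasCompactSupport g) (i j : Fin m) :
    ∫ z : V m, ((z i j : ℝ) : ℂ) * fderiv ℝ g z (ev i j) * EE w z =
      -∫ z : V m, (g z * EE w z + g z * (((z i j : ℝ) : ℂ) * fderiv ℝ (EE w) z (ev i j))) := by
  have hcE := EE_cont w
  have hcg : Continuous fun z => fderiv ℝ g z (ev i j) := by
    have : Continuous (fderiv ℝ g) := hg.continuous_fderiv (by simp)
    exact this.clm_apply continuous_const
  have hsg : HasCompactSupport fun z => fderiv ℝ g z (ev i j) := by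
    refine HasCompactSupport.intro hc ?_
    intro z hz
    rw [fderiv_of_notMem_tsupport (𝕜 := ℝ) hz]
    rfl
  have hcz : Continuous fun z : V m => ((z i j : ℝ) : ℂ) :=
    Complex.continuous_ofReal.comp ((continuous_apply j).comp (continuous_apply i))
  have hEf : ∀ z, fderiv ℝ (EE w) z (ev i j) = (-(2 * Real.pi * Complex.I) : ℂ) * EE w z *
      ((trL w (ev i j) : ℝ) : ℂ) := by
    intro z
    rw [(EE_fd w z).fderiv]
    rfl
  have hP : ∀ z : V m, HasFDerivAt (fun z : V m => ((z i j : ℝ) : ℂ))
      (Complex.ofRealCLM.comp ((ContinuousLinearMap.proj (R := ℝ) (φ := fun _ : Fin m => ℝ) j).comp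
        (ContinuousLinearMap.proj (R := ℝ) (φ := fun _ : Fin m => Fin m → ℝ) i))) z := by
    intro z
    exact (Complex.ofRealCLM.comp ((ContinuousLinearMap.proj (R := ℝ) (φ := fun _ : Fin m => ℝ)
      j).comp (ContinuousLinearMap.proj (R := ℝ) (φ := fun _ : Fin m => Fin m → ℝ) i))).hasFDerivAt
  have hD : ∀ z : V m, fderiv ℝ (fun z : V m => ((z i j : ℝ) : ℂ) * EE w z) z (ev i j) =
      EE w z + ((z i j : ℝ) : ℂ) * fderiv ℝ (EE w) z (ev i j) := by
    intro z
    have h0 : fderiv ℝ (fun z : V m => ((z i j : ℝ) : ℂ) * EE w z) z = _ :=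
      ((hP z).mul (EE_fd w z)).fderiv
    rw [h0, (EE_fd w z).fderiv]
    show ((z i j : ℝ) : ℂ) * ((-(2 * Real.pi * Complex.I) : ℂ) * EE w z *
      ((trL w (ev i j) : ℝ) : ℂ)) + EE w z * (((ev i j : V m) i j : ℝ) : ℂ) =
      EE w z + ((z i j : ℝ) : ℂ) * ((-(2 * Real.pi * Complex.I) : ℂ) * EE w z *
      ((trL w (ev i j) : ℝ) : ℂ))
    have h2 : (ev i j : V m) i j = 1 := by simp [ev]
    rw [h2]
    push_cast
    ring
  have h1 := integral_mul_fderiv_eq_neg_fderiv_mul_of_integrable (μ := (volume : Measure (V m)))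
    (f := g) (g := fun z : V m => ((z i j : ℝ) : ℂ) * EE w z) (v := ev i j) (𝕜 := ℂ) ?_ ?_ ?_ ?_ ?_
  · have h2 : ∫ z : V m, fderiv ℝ g z (ev i j) * (((z i j : ℝ) : ℂ) * EE w z) =
        -∫ z : V m, g z * fderiv ℝ (fun z : V m => ((z i j : ℝ) : ℂ) * EE w z) z (ev i j) := by
      rw [h1, neg_neg]
    have h3 : ∀ z : V m, ((z i j : ℝ) : ℂ) * fderiv ℝ g z (ev i j) * EE w z =
        fderiv ℝ g z (ev i j) * (((z i j : ℝ) : ℂ) * EE w z) := fun z => by ring
    simp only [h3]
    rw [h2]
    simp only [hD]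
    congr 1
    apply integral_congr_ae
    filter_upwards with z
    ring
  · exact (hcg.mul (hcz.mul hcE)).integrable_of_hasCompactSupport hsg.mul_right
  · simp only [hD, hEf]
    have : Continuous fun z : V m => g z * (EE w z + ((z i j : ℝ) : ℂ) *
      ((-(2 * Real.pi * Complex.I) : ℂ) * EE w z * ((trL w (ev i j) : ℝ) : ℂ))) :=
      hg.continuous.mul (hcE.add (hcz.mul ((continuous_const.mul hcE).mul continuous_const)))
    exact this.integrable_of_hasCompactSupport hc.mul_right
  · exact (hg.continuous.mul (hcz.mul hcE)).integrable_of_hasCompactSupport hc.mul_right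
  · intro z _
    exact (hg.differentiable (by simp)).differentiableAt
  · intro z _
    exact ((hP z).mul (EE_fd w z)).differentiableAt

/-- integration by parts for Euler's operator -/
lemma parts {m : ℕ} (w : Mat m) {g : V m → ℂ}
    (hg : ContDiff ℝ ((⊤ : ℕ∞) : WithTop ℕ∞) g) (hc : HasCompactSupport g) :
    ∫ z : V m, fderiv ℝ g z z * EE w z =
      -((m : ℂ) ^ 2 * ∫ z : V m, g z * EE w z) - ∫ z : V m, g z * fderiv ℝ (EE w) z z := by
  have hcE := EE_cont w
  have hcz : ∀ i j : Fin m, Continuous fun z : V m => ((z i j : ℝ) : ℂ) := fun i j =>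
    Complex.continuous_ofReal.comp ((continuous_apply j).comp (continuous_apply i))
  have hEf : ∀ z v, fderiv ℝ (EE w) z v = (-(2 * Real.pi * Complex.I) : ℂ) * EE w z *
      ((trL w v : ℝ) : ℂ) := by
    intro z v
    rw [(EE_fd w z).fderiv]
    rfl
  have i1 : ∀ i j : Fin m, Integrable fun z : V m =>
      ((z i j : ℝ) : ℂ) * fderiv ℝ g z (ev i j) * EE w z := by
    intro i j
    have hcg : Continuous fun z => fderiv ℝ g z (ev i j) := by
      have : Continuous (fderiv ℝ g) := hg.continuous_fderiv (by simp)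
      exact this.clm_apply continuous_const
    have hsg : HasCompactSupport fun z => fderiv ℝ g z (ev i j) := by
      refine HasCompactSupport.intro hc ?_
      intro z hz
      rw [fderiv_of_notMem_tsupport (𝕜 := ℝ) hz]
      rfl
    exact (((hcz i j).mul hcg).mul hcE).integrable_of_hasCompactSupport
      (hsg.mul_left.mul_right)
  have i2 : Integrable fun z : V m => g z * EE w z :=
    (hg.continuous.mul hcE).integrable_of_hasCompactSupport hc.mul_right
  have i3 : ∀ i j : Fin m, Integrable fun z : V m =>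
      g z * (((z i j : ℝ) : ℂ) * fderiv ℝ (EE w) z (ev i j)) := by
    intro i j
    simp only [hEf]
    have : Continuous fun z : V m => g z * (((z i j : ℝ) : ℂ) *
      ((-(2 * Real.pi * Complex.I) : ℂ) * EE w z * ((trL w (ev i j) : ℝ) : ℂ))) :=
      hg.continuous.mul ((hcz i j).mul ((continuous_const.mul hcE).mul continuous_const))
    exact this.integrable_of_hasCompactSupport hc.mul_right
  have h1 : ∀ z : V m, fderiv ℝ g z z * EE w z =
      ∑ i, ∑ j, ((z i j : ℝ) : ℂ) * fderiv ℝ g z (ev i j) * EE w z := by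
    intro z
    rw [lin_sum (fderiv ℝ g z) z, Finset.sum_mul]
    apply Finset.sum_congr rfl
    intro i _
    rw [Finset.sum_mul]
  have h2 : ∀ z : V m, g z * fderiv ℝ (EE w) z z =
      ∑ i, ∑ j, g z * (((z i j : ℝ) : ℂ) * fderiv ℝ (EE w) z (ev i j)) := by
    intro z
    rw [lin_sum (fderiv ℝ (EE w) z) z, Finset.mul_sum]
    apply Finset.sum_congr rfl
    intro i _
    rw [Finset.mul_sum]
  simp only [h1, h2]
  rw [integral_finsetSum _ fun i _ => integrable_finsetSum _ fun j _ => i1 i j,
    integral_finsetSum _ fun i _ => integrable_finsetSum _ fun j _ => i3 i j]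
  have h3 : ∀ i : Fin m, ∫ z : V m, ∑ j, ((z i j : ℝ) : ℂ) * fderiv ℝ g z (ev i j) * EE w z =
      -((m : ℂ) * ∫ z : V m, g z * EE w z) -
        ∫ z : V m, ∑ j, g z * (((z i j : ℝ) : ℂ) * fderiv ℝ (EE w) z (ev i j)) := by
    intro i
    rw [integral_finsetSum _ fun j _ => i1 i j, integral_finsetSum _ fun j _ => i3 i j]
    have h4 : ∀ j : Fin m, ∫ z : V m, ((z i j : ℝ) : ℂ) * fderiv ℝ g z (ev i j) * EE w z =
        -(∫ z : V m, g z * EE w z) -
          ∫ z : V m, g z * (((z i j : ℝ) : ℂ) * fderiv ℝ (EE w) z (ev i j)) := by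
      intro j
      rw [coord w hg hc i j, integral_add i2 (i3 i j)]
      ring
    simp only [h4]
    rw [Finset.sum_sub_distrib, Finset.sum_const, Finset.card_univ, Fintype.card_fin, nsmul_eq_mul]
    ring
  simp only [h3]
  rw [Finset.sum_sub_distrib, Finset.sum_const, Finset.card_univ, Fintype.card_fin, nsmul_eq_mul]
  ring

/-- derivative under the integral sign -/
lemma ft_der {m : ℕ} {Φ : Mat m → ℂ} (h : TgS m Φ) (w : Mat m) :
    HasDerivAt (fun c : ℝ => ft Φ (c • w)) (∫ z : V m, Φ (mt z) * fderiv ℝ (EE w) z z) 1 := by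
  have hcs := FD.comp h.toTg
  have hcont : Continuous fun z : V m => Φ (mt z) := h.smooth.continuous
  have hE : ∀ (c : ℝ) (z : V m), ee (-((c • w) * mt z).trace) =
      Complex.exp (2 * Real.pi * Complex.I * ((-(c * trL w z) : ℝ) : ℂ)) := by
    intro c z
    rw [Matrix.smul_mul, Matrix.trace_smul]
    rfl
  have hd : ∀ (c : ℝ) (z : V m), HasDerivAt (fun c : ℝ => Φ (mt z) *
      Complex.exp (2 * Real.pi * Complex.I * ((-(c * trL w z) : ℝ) : ℂ)))
      (Φ (mt z) * (Complex.exp (2 * Real.pi * Complex.I * ((-(c * trL w z) : ℝ) : ℂ)) *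
        (2 * Real.pi * Complex.I * ((-(trL w z) : ℝ) : ℂ)))) c := by
    intro c z
    have h1 : HasDerivAt (fun c : ℝ => -(c * trL w z)) (-(trL w z)) c := by
      have := ((hasDerivAt_id c).mul_const (trL w z)).neg
      rw [one_mul] at this
      exact this
    have h2 := (h1.ofReal_comp.const_mul (2 * Real.pi * Complex.I : ℂ)).cexp
    exact h2.const_mul (Φ (mt z))
  have key := hasDerivAt_integral_of_dominated_loc_of_deriv_le (μ := (volume : Measure (V m)))
    (F := fun (c : ℝ) (z : V m) => Φ (mt z) *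
      Complex.exp (2 * Real.pi * Complex.I * ((-(c * trL w z) : ℝ) : ℂ)))
    (F' := fun (c : ℝ) (z : V m) => Φ (mt z) *
      (Complex.exp (2 * Real.pi * Complex.I * ((-(c * trL w z) : ℝ) : ℂ)) *
        (2 * Real.pi * Complex.I * ((-(trL w z) : ℝ) : ℂ))))
    (x₀ := 1) (s := Set.univ) (bound := fun z : V m => ‖Φ (mt z)‖ * (2 * Real.pi * |trL w z|))
    Filter.univ_mem ?_ ?_ ?_ ?_ ?_ ?_
  · have h3 := key.2
    have h4 : (fun c : ℝ => ft Φ (c • w)) = fun c : ℝ => ∫ z : V m, Φ (mt z) *
        Complex.exp (2 * Real.pi * Complex.I * ((-(c * trL w z) : ℝ) : ℂ)) := by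
      funext c
      unfold ft
      simp only [hE]
    rw [h4]
    have h5 : (∫ z : V m, Φ (mt z) * fderiv ℝ (EE w) z z) = ∫ z : V m, Φ (mt z) *
      (Complex.exp (2 * Real.pi * Complex.I * ((-((1 : ℝ) * trL w z) : ℝ) : ℂ)) *
        (2 * Real.pi * Complex.I * ((-(trL w z) : ℝ) : ℂ))) := by
      apply integral_congr_ae
      filter_upwards with z
      rw [(EE_fd w z).fderiv]
      show Φ (mt z) * ((-(2 * Real.pi * Complex.I) : ℂ) * EE w z * ((trL w z : ℝ) : ℂ)) = _
      have h6 : Complex.exp (2 * Real.pi * Complex.I * ((-(1 * trL w z) : ℝ) : ℂ)) = EE w z := by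
        rw [one_mul]
        rfl
      rw [h6]
      push_cast
      ring
    rw [h5]
    exact h3
  · refine Filter.Eventually.of_forall fun c => ?_
    apply Continuous.aestronglyMeasurable
    refine hcont.mul (Complex.continuous_exp.comp (continuous_const.mul
      (Complex.continuous_ofReal.comp (continuous_const.mul (trL w).continuous).neg)))
  · apply Continuous.integrable_of_hasCompactSupport
    · exact hcont.mul (Complex.continuous_exp.comp (continuous_const.mul
        (Complex.continuous_ofReal.comp (continuous_const.mul (trL w).continuous).neg)))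
    · exact hcs.mul_right
  · apply Continuous.aestronglyMeasurable
    exact hcont.mul ((Complex.continuous_exp.comp (continuous_const.mul
        (Complex.continuous_ofReal.comp (continuous_const.mul (trL w).continuous).neg))).mul
        (continuous_const.mul (Complex.continuous_ofReal.comp (trL w).continuous.neg)))
  · refine Filter.Eventually.of_forall fun z c _ => ?_
    rw [norm_mul, norm_mul]
    have h7 : ‖Complex.exp (2 * Real.pi * Complex.I * ((-(c * trL w z) : ℝ) : ℂ))‖ = 1 := by
      have : (2 * Real.pi * Complex.I * ((-(c * trL w z) : ℝ) : ℂ)) =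
        ((2 * Real.pi * (-(c * trL w z)) : ℝ) : ℂ) * Complex.I := by push_cast; ring
      rw [this, Complex.norm_exp_ofReal_mul_I]
    rw [h7, one_mul]
    apply le_of_eq
    rw [norm_mul, norm_mul, norm_mul, Complex.norm_I, Complex.norm_real, Complex.norm_real,
      Real.norm_eq_abs, Real.norm_eq_abs, abs_neg, abs_of_pos Real.pi_pos]
    norm_num
  · apply Continuous.integrable_of_hasCompactSupport
    · exact hcont.norm.mul (continuous_const.mul (trL w).continuous.abs)
    · exact hcs.norm.mul_right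
  · refine Filter.Eventually.of_forall fun z c _ => ?_
    exact hd c z

end FE

open FE in
theorem pf_FDD : T_FDD := by
  intro m hm Φ h
  have hpi : (starRingEnd ℂ) ((2 * Real.pi * Complex.I) ^ m) =
      (-(2 * Real.pi * Complex.I)) ^ m := by
    rw [map_pow]
    congr 1
    rw [map_mul, map_mul, Complex.conj_I, Complex.conj_ofReal, Complex.conj_ofNat]
    ring
  refine ⟨fun w => ?_, fun w => ?_⟩
  · rw [hpi]
    exact cf_dD h w
  · have h1 := ft_der h w
    have h2 : ft (eu2 Φ) w = ∫ z : V m, Φ (mt z) * fderiv ℝ (FD.EE w) z z := by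
      have h3 := parts w h.smooth (FD.comp h.toTg)
      have h4 : ft (eu2 Φ) w = ∫ z : V m, -((m : ℂ) ^ 2 * (Φ (mt z) * FD.EE w z) +
          fderiv ℝ (fun z : V m => Φ (mt z)) z z * FD.EE w z) := by
        unfold ft
        apply integral_congr_ae
        filter_upwards with z
        unfold eu2
        rw [TE.eu_eq h.smooth z]
        show _ * FD.EE w z = _
        ring
      have hc1 : Continuous fun z : V m => fderiv ℝ (fun z : V m => Φ (mt z)) z z := by
        have h5 := (TE.eu_smooth h.smooth).continuous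
        have h6 : (fun z : V m => eu Φ (mt z)) =
            fun z : V m => fderiv ℝ (fun z : V m => Φ (mt z)) z z := by
          funext z
          exact TE.eu_eq h.smooth z
        rw [h6] at h5
        exact h5
      have hs1 : HasCompactSupport fun z : V m => fderiv ℝ (fun z : V m => Φ (mt z)) z z := by
        refine HasCompactSupport.intro (FD.comp h.toTg) ?_
        intro z hz
        rw [fderiv_of_notMem_tsupport (𝕜 := ℝ) hz]
        rfl
      rw [h4, integral_neg, integral_add, integral_const_mul, h3]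
      · ring
      · exact ((h.smooth.continuous.mul (FD.EE_cont w)).integrable_of_hasCompactSupport
          (FD.comp h.toTg).mul_right).const_mul _
      · exact (hc1.mul (FD.EE_cont w)).integrable_of_hasCompactSupport hs1.mul_right
    have h7 : (starRingEnd ℂ) (∫ z : V m, Φ (mt z) * fderiv ℝ (FD.EE w) z z) =
        Pool.Agent.H34.GA.cf (eu2 Φ) w := by
      rw [← h2]
      rfl
    rw [← h7]
    exact h1.star

open FE in
theorem pf_ZAD : T_ZAD := by
  intro m hm mu c M _ hI Φ h hp s
  refine ⟨?_, ?_⟩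
  · have h1 := za_dD hI h hp (s + 1)
    rw [h1]
    have h2 : s + 1 - 1 = s := by ring
    rw [h2]
  · have h1 := za_dDl hI h hp m s
    rw [h1, norm_mul, norm_mul, norm_pow, norm_neg, norm_one, one_pow, one_mul,
      Finset.prod_range]
    congr 1
    rw [norm_prod]
    apply Finset.prod_congr rfl
    intro i _
    rw [norm_prod]

end Pool.Agent.H84.GA
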