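import Pool.Agent.H84.GA.FD2

/-!
Row FTB: the Fourier transform of a smooth function with compact support decays.
-/

set_option autoImplicit false

namespace Pool.Agent.H84.GA

open MeasureTheory Pool.Agent.H34.GM Pool.Agent.H34.GU Pool.Agent.H34.GA
open Pool.Agent.H34.GZ hiding eu eu2 cf

namespace DE

open FD

lemma EE_norm {m : ℕ} (w : Mat m) (z : V m) : ‖EE w z‖ = 1 := by
  have : EE w z = Complex.exp (((2 * Real.pi * (-(w * mt z).trace) : ℝ) : ℂ) * Complex.I) := by
    show Complex.exp (2 * Real.pi * Complex.I * ((-(w * mt z).trace : ℝ) : ℂ)) = _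
    congr 1
    push_cast
    ring
  rw [this, Complex.norm_exp_ofReal_mul_I]

/-- the constant -/
noncomputable def dc {m : ℕ} (f : V m → ℂ) (N : ℕ) : ℝ :=
  2 ^ (N + 1) * (1 + (∫ z, ‖f z‖) +
    ∑ i : Fin m, ∑ j : Fin m, ∫ z, ‖iteratedFDeriv ℝ N f z (fun _ => ev i j)‖)

lemma dc_pos {m : ℕ} (f : V m → ℂ) (N : ℕ) : 0 < dc f N := by
  unfold dc
  have h1 : 0 ≤ ∫ z, ‖f z‖ := integral_nonneg fun _ => norm_nonneg _
  have h2 : 0 ≤ ∑ i : Fin m, ∑ j : Fin m,
      ∫ z, ‖iteratedFDeriv ℝ N f z (fun _ => ev i j)‖ :=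
    Finset.sum_nonneg fun i _ => Finset.sum_nonneg fun j _ =>
      integral_nonneg fun _ => norm_nonneg _
  positivity

lemma dec {m : ℕ} {f : V m → ℂ} (hf : ContDiff ℝ ((⊤ : ℕ∞) : WithTop ℕ∞) f)
    (hc : HasCompactSupport f) (N : ℕ) (w : Mat m) :
    ‖∫ z, f z * EE w z‖ ≤ dc f N * (1 + sz w) ^ (-(N : ℝ)) := by
  have hs0 : 0 ≤ sz w := norm_nonneg _
  have hI : ‖∫ z, f z * EE w z‖ ≤ ∫ z, ‖f z‖ := by
    refine (norm_integral_le_integral_norm _).trans (le_of_eq ?_)
    apply integral_congr_ae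
    filter_upwards with z
    rw [norm_mul, EE_norm, mul_one]
  have hS0 : 0 ≤ ∑ i : Fin m, ∑ j : Fin m,
      ∫ z, ‖iteratedFDeriv ℝ N f z (fun _ => ev i j)‖ :=
    Finset.sum_nonneg fun i _ => Finset.sum_nonneg fun j _ =>
      integral_nonneg fun _ => norm_nonneg _
  have hij : ∀ i j : Fin m, |w j i| ^ N * ‖∫ z, f z * EE w z‖ ≤
      ∫ z, ‖iteratedFDeriv ℝ N f z (fun _ => ev i j)‖ := by
    intro i j
    have h1 := steps w hf hc N (fun _ => ev i j)
    have h2 : ‖∏ _i : Fin N, (2 * Real.pi * Complex.I * (trL w (ev i j) : ℝ) : ℂ)‖ =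
        (2 * Real.pi * |w j i|) ^ N := by
      rw [Finset.prod_const, Finset.card_univ, Fintype.card_fin, norm_pow, trL_ev, norm_mul,
        norm_mul, norm_mul, Complex.norm_I, Complex.norm_real, Complex.norm_real,
        Real.norm_eq_abs, Real.norm_eq_abs, abs_of_pos Real.pi_pos]
      norm_num
    have h3 : (2 * Real.pi * |w j i|) ^ N * ‖∫ z, f z * EE w z‖ ≤
        ∫ z, ‖iteratedFDeriv ℝ N f z (fun _ => ev i j)‖ := by
      rw [← h2, ← norm_mul, ← h1]
      refine (norm_integral_le_integral_norm _).trans (le_of_eq ?_)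
      apply integral_congr_ae
      filter_upwards with z
      rw [norm_mul, EE_norm, mul_one]
    refine le_trans ?_ h3
    apply mul_le_mul_of_nonneg_right _ (norm_nonneg _)
    apply pow_le_pow_left₀ (abs_nonneg _)
    have := Real.pi_gt_three
    nlinarith [abs_nonneg (w j i)]
  have hsz : (sz w) ^ N * ‖∫ z, f z * EE w z‖ ≤ (∫ z, ‖f z‖) + ∑ i : Fin m, ∑ j : Fin m,
      ∫ z, ‖iteratedFDeriv ℝ N f z (fun _ => ev i j)‖ := by
    by_cases hw : sz w = 0
    · rw [hw]
      have h1 : (0 : ℝ) ^ N ≤ 1 := by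
        rcases Nat.eq_zero_or_pos N with h | h
        · rw [h]; simp
        · rw [zero_pow (by omega)]; norm_num
      have h2 : (0 : ℝ) ^ N * ‖∫ z, f z * EE w z‖ ≤ 1 * ‖∫ z, f z * EE w z‖ :=
        mul_le_mul_of_nonneg_right h1 (norm_nonneg _)
      linarith
    · have hex : ∃ a b : Fin m, sz w ≤ |w a b| := by
        by_contra hn
        push Not at hn
        have hpos : 0 < sz w := lt_of_le_of_ne hs0 (Ne.symm hw)
        have h3 : sz w < sz w := by
          have h4 : ‖((fun i j => w i j) : V m)‖ < sz w := by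
            rw [pi_norm_lt_iff hpos]
            intro i
            rw [pi_norm_lt_iff hpos]
            intro j
            exact hn i j
          exact h4
        exact lt_irrefl _ h3
      obtain ⟨a, b, hab⟩ := hex
      have h1 : (sz w) ^ N * ‖∫ z, f z * EE w z‖ ≤ |w a b| ^ N * ‖∫ z, f z * EE w z‖ :=
        mul_le_mul_of_nonneg_right (pow_le_pow_left₀ hs0 hab N) (norm_nonneg _)
      have h2 := hij b a
      have h3 : ∫ z, ‖iteratedFDeriv ℝ N f z (fun _ => ev b a)‖ ≤ ∑ i : Fin m, ∑ j : Fin m,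
          ∫ z, ‖iteratedFDeriv ℝ N f z (fun _ => ev i j)‖ := by
        refine le_trans ?_ (Finset.single_le_sum (f := fun i => ∑ j : Fin m,
          ∫ z, ‖iteratedFDeriv ℝ N f z (fun _ => ev i j)‖)
          (fun i _ => Finset.sum_nonneg fun j _ => integral_nonneg fun _ => norm_nonneg _)
          (Finset.mem_univ b))
        exact Finset.single_le_sum (f := fun j : Fin m =>
          ∫ z, ‖iteratedFDeriv ℝ N f z (fun _ => ev b j)‖)
          (fun j _ => integral_nonneg fun _ => norm_nonneg _) (Finset.mem_univ a)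
      have h4 : 0 ≤ ∫ z, ‖f z‖ := integral_nonneg fun _ => norm_nonneg _
      linarith
  have hp : (1 + sz w) ^ N ≤ 2 ^ N * (1 + (sz w) ^ N) := by
    by_cases h1 : sz w ≤ 1
    · have h2 : (1 + sz w) ^ N ≤ 2 ^ N := pow_le_pow_left₀ (by positivity) (by linarith) N
      have h3 : (0 : ℝ) ≤ 2 ^ N * (sz w) ^ N := by positivity
      linarith
    · push Not at h1
      have h2 : (1 + sz w) ^ N ≤ (2 * sz w) ^ N :=
        pow_le_pow_left₀ (by positivity) (by linarith) N
      rw [mul_pow] at h2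
      have h3 : (0 : ℝ) ≤ 2 ^ N := by positivity
      linarith
  rw [Real.rpow_neg (by positivity), Real.rpow_natCast, ← div_eq_mul_inv,
    le_div_iff₀ (by positivity)]
  calc ‖∫ z, f z * EE w z‖ * (1 + sz w) ^ N
      ≤ ‖∫ z, f z * EE w z‖ * (2 ^ N * (1 + (sz w) ^ N)) :=
        mul_le_mul_of_nonneg_left hp (norm_nonneg _)
    _ = 2 ^ N * (‖∫ z, f z * EE w z‖ + (sz w) ^ N * ‖∫ z, f z * EE w z‖) := by ring
    _ ≤ 2 ^ N * (‖∫ z, f z * EE w z‖ + ((∫ z, ‖f z‖) + ∑ i : Fin m, ∑ j : Fin m,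
          ∫ z, ‖iteratedFDeriv ℝ N f z (fun _ => ev i j)‖)) := by
        apply mul_le_mul_of_nonneg_left _ (by positivity)
        linarith
    _ ≤ 2 ^ N * (2 * (1 + (∫ z, ‖f z‖) + ∑ i : Fin m, ∑ j : Fin m,
          ∫ z, ‖iteratedFDeriv ℝ N f z (fun _ => ev i j)‖)) := by
        apply mul_le_mul_of_nonneg_left _ (by positivity)
        linarith
    _ = dc f N := by unfold dc; ring

lemma ft_cont {m : ℕ} {f : V m → ℂ} (hf : Continuous f) (hc : HasCompactSupport f) :
    Continuous fun w : Mat m => ∫ z, f z * EE w z := by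
  suffices h0 : Continuous fun w : V m => ∫ z, f z * EE (mt w) z from h0
  apply continuous_of_dominated (bound := fun z => ‖f z‖)
  · intro w
    exact (hf.mul (EE_cont w)).aestronglyMeasurable
  · intro w
    refine Filter.Eventually.of_forall fun z => ?_
    rw [norm_mul, EE_norm, mul_one]
  · exact (hf.norm).integrable_of_hasCompactSupport hc.norm
  · refine Filter.Eventually.of_forall fun z => ?_
    apply continuous_const.mul
    have h1 : Continuous fun w : V m => (mt w * mt z).trace := by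
      apply Continuous.matrix_trace
      apply Continuous.matrix_mul _ continuous_const
      exact continuous_id
    show Continuous fun w : V m => Complex.exp (2 * Real.pi * Complex.I *
      ((-(mt w * mt z).trace : ℝ) : ℂ))
    exact Complex.continuous_exp.comp (continuous_const.mul
      (Complex.continuous_ofReal.comp h1.neg))

end DE

open DE in
theorem pf_FTB : T_FTB := by
  intro m _ Φ h
  have hf : Dg m (ft Φ) := by
    refine ⟨ft_cont h.smooth.continuous (FD.comp h.toTg), fun N =>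
      ⟨dc (fun z : V m => Φ (mt z)) N, (dc_pos (fun z : V m => Φ (mt z)) N).le, ?_⟩⟩
    intro w
    exact dec h.smooth (FD.comp h.toTg) N w
  refine ⟨⟨?_, ?_⟩, hf⟩
  · exact Complex.continuous_conj.comp hf.cont
  · intro N
    obtain ⟨C, hC, h1⟩ := hf.dec N
    refine ⟨C, hC, fun w => ?_⟩
    show ‖(starRingEnd ℂ) (ft Φ w)‖ ≤ _
    rw [RCLike.norm_conj]
    exact h1 w

end Pool.Agent.H84.GA
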