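import Pool.Agent.H84.GA.FDD
import Pool.Agent.H34.GA.Targets1

/-!
Row TEU: Euler's operator on the test functions.
-/

set_option autoImplicit false

namespace Pool.Agent.H84.GA

open MeasureTheory Pool.Agent.H34.GM Pool.Agent.H34.GU Pool.Agent.H34.GA
open Pool.Agent.H34.GZ hiding eu eu2 cf

namespace TE

lemma hd {m : ℕ} {Φ : Mat m → ℂ}
    (hf : ContDiff ℝ ((⊤ : ℕ∞) : WithTop ℕ∞) fun z : V m => Φ (mt z)) (z : V m) :
    HasDerivAt (fun c : ℝ => Φ (c • mt z)) (fderiv ℝ (fun z : V m => Φ (mt z)) z z) 1 := by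
  have h1 : HasFDerivAt (fun z : V m => Φ (mt z)) (fderiv ℝ (fun z : V m => Φ (mt z)) z)
      ((1 : ℝ) • z) := by
    rw [one_smul]
    exact ((hf.differentiable (by simp)) z).hasFDerivAt
  have h2 : HasDerivAt (fun c : ℝ => c • z) ((1 : ℝ) • z) 1 := by
    have := (hasDerivAt_id (1 : ℝ)).smul_const z
    exact this
  have h3 := h1.comp_hasDerivAt (1 : ℝ) h2
  rw [one_smul] at h3
  exact h3

lemma eu_eq {m : ℕ} {Φ : Mat m → ℂ}
    (hf : ContDiff ℝ ((⊤ : ℕ∞) : WithTop ℕ∞) fun z : V m => Φ (mt z)) (z : V m) :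
    eu Φ (mt z) = fderiv ℝ (fun z : V m => Φ (mt z)) z z := (hd hf z).deriv

lemma eu_smooth {m : ℕ} {Φ : Mat m → ℂ}
    (hf : ContDiff ℝ ((⊤ : ℕ∞) : WithTop ℕ∞) fun z : V m => Φ (mt z)) :
    ContDiff ℝ ((⊤ : ℕ∞) : WithTop ℕ∞) fun z : V m => eu Φ (mt z) := by
  have h1 : (fun z : V m => eu Φ (mt z)) =
      fun z : V m => fderiv ℝ (fun z : V m => Φ (mt z)) z z := by
    funext z
    exact eu_eq hf z
  rw [h1]
  have h2 : ContDiff ℝ ((⊤ : ℕ∞) : WithTop ℕ∞) (fderiv ℝ (fun z : V m => Φ (mt z))) :=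
    hf.fderiv_right (by exact_mod_cast (le_top : ((⊤ : ℕ∞) + (1 : ℕ∞)) ≤ ⊤))
  exact h2.clm_apply contDiff_id

lemma eu_zero {m : ℕ} {Φ : Mat m → ℂ}
    (hf : ContDiff ℝ ((⊤ : ℕ∞) : WithTop ℕ∞) fun z : V m => Φ (mt z)) {z : V m}
    (hz : z ∉ tsupport (fun z : V m => Φ (mt z))) : eu Φ (mt z) = 0 := by
  rw [eu_eq hf z, fderiv_of_notMem_tsupport (𝕜 := ℝ) hz]
  rfl

lemma eu_tgs {m : ℕ} {Φ : Mat m → ℂ} (h : TgS m Φ) : TgS m (eu Φ) :=
  FD.of h (eu_smooth h.smooth) fun _ hz => eu_zero h.smooth hz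

lemma eu2_tgs {m : ℕ} {Φ : Mat m → ℂ} (h : TgS m Φ) : TgS m (eu2 Φ) := by
  refine FD.of h ?_ ?_
  · exact ((contDiff_const.mul h.smooth).add (eu_smooth h.smooth)).neg
  · intro z hz
    have h1 : Φ (mt z) = 0 := by
      have := image_eq_zero_of_notMem_tsupport (f := fun z : V m => Φ (mt z)) hz
      exact this
    unfold eu2
    rw [h1, eu_zero h.smooth hz]
    simp

end TE

open TE in
theorem pf_TEU : T_TEU := by
  intro m _ Φ h
  refine ⟨eu_tgs h, eu2_tgs h, FD.dD_tgs h, ?_, ?_, ?_⟩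
  · intro z
    have h1 := hd h.smooth z
    have h2 := eu_eq h.smooth z
    rw [← h2] at h1
    exact h1
  · intro hp
    exact FD.dD_pos h hp
  · intro R hR z hz
    have hts : (z : V m) ∈ tsupport (fun z : V m => Φ (mt z)) := by
      by_contra hn
      rcases hz with hz | hz
      · exact hz (FD.dD_zero hn)
      · exact hz (eu_zero h.smooth hn)
    have h2 : tsupport (fun z : V m => Φ (mt z)) ⊆ {z : V m | sz (mt z - 1) ≤ R} := by
      apply closure_minimal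
      · intro y hy
        exact hR _ hy
      · refine isClosed_le ?_ continuous_const
        exact (continuous_id.sub continuous_const).norm
    exact h2 hts

end Pool.Agent.H84.GA
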