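import Pool.Agent.H84.GA.FDD

/-!
Rows BIP, BDB: the bump functions near the unit matrix.
-/

set_option autoImplicit false

namespace Pool.Agent.H84.GA

open MeasureTheory Pool.Agent.H34.GM Pool.Agent.H34.GZ Pool.Agent.H34.GU Pool.Agent.H34.GA

namespace BD

lemma sum_lt {m : ℕ} {χ : ℝ → ℝ} (hχ : Prof χ) {δ : ℝ} (hδ : 0 < δ) {z : Mat m}
    (hz : bi m χ δ z ≠ 0) : ∑ i, ∑ j, ((z - 1) i j) ^ 2 < δ ^ 2 := by
  by_contra hn
  push Not at hn
  apply hz
  unfold bi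
  have h1 : 1 ≤ |(∑ i, ∑ j, ((z - 1) i j) ^ 2) / δ ^ 2| := by
    rw [abs_of_nonneg (by positivity), le_div_iff₀ (by positivity), one_mul]
    exact hn
  rw [hχ.supp _ h1]
  simp

/-- near the unit matrix the determinant does not vanish -/
lemma det_ne {m : ℕ} (x : Mat m) (hx : ∑ i, ∑ j, (x i j) ^ 2 < 1) : (1 + x).det ≠ 0 := by
  intro h0
  obtain ⟨v, hv, h1⟩ := Matrix.exists_mulVec_eq_zero_iff.2 h0
  have h2 : ∀ i, v i = -(∑ j, x i j * v j) := by
    intro i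
    have h3 := congrFun h1 i
    rw [Matrix.add_mulVec, Matrix.one_mulVec] at h3
    have h4 : (x.mulVec v) i = ∑ j, x i j * v j := rfl
    simp only [Pi.add_apply, h4, Pi.zero_apply] at h3
    linarith
  have h3 : ∑ i, (v i) ^ 2 ≤ (∑ i, ∑ j, (x i j) ^ 2) * ∑ j, (v j) ^ 2 := by
    rw [Finset.sum_mul]
    apply Finset.sum_le_sum
    intro i _
    rw [h2 i, neg_sq]
    exact Finset.sum_mul_sq_le_sq_mul_sq _ _ _
  have h4 : 0 < ∑ i, (v i) ^ 2 := by
    obtain ⟨i, hi⟩ : ∃ i, v i ≠ 0 := by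
      by_contra hn
      push Not at hn
      exact hv (funext hn)
    have h5 : 0 < (v i) ^ 2 := by positivity
    exact lt_of_lt_of_le h5 (Finset.single_le_sum (f := fun i => (v i) ^ 2)
      (fun i _ => sq_nonneg _) (Finset.mem_univ i))
  nlinarith

lemma det_pos {m : ℕ} (x : Mat m) (hx : ∑ i, ∑ j, (x i j) ^ 2 < 1) : 0 < (1 + x).det := by
  by_contra hn
  push Not at hn
  have hc : Continuous fun t : ℝ => (1 + t • x).det := by
    apply Continuous.matrix_det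
    exact continuous_const.add (continuous_id.smul continuous_const)
  have h1 : (0 : ℝ) ∈ (fun t : ℝ => (1 + t • x).det) '' Set.Icc 0 1 := by
    have h2 := intermediate_value_Icc' (zero_le_one' ℝ) hc.continuousOn
    apply h2
    simp only [one_smul, zero_smul, add_zero, Matrix.det_one]
    exact ⟨hn, zero_le_one⟩
  obtain ⟨t, ht, h3⟩ := h1
  refine det_ne (t • x) ?_ h3
  refine lt_of_le_of_lt ?_ hx
  apply Finset.sum_le_sum
  intro i _
  apply Finset.sum_le_sum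
  intro j _
  rw [Matrix.smul_apply, smul_eq_mul, mul_pow]
  have h4 : t ^ 2 ≤ 1 := by
    have := ht.1; have := ht.2; nlinarith
  exact mul_le_of_le_one_left (sq_nonneg _) h4

/-- the model bump function -/
noncomputable def b1 (m : ℕ) (χ : ℝ → ℝ) (y : V m) : ℂ := (χ (∑ i, ∑ j, (y i j) ^ 2) : ℝ)

lemma b1_smooth {m : ℕ} {χ : ℝ → ℝ} (hχ : Prof χ) :
    ContDiff ℝ ((⊤ : ℕ∞) : WithTop ℕ∞) (b1 m χ) := by
  unfold b1
  apply Complex.ofRealCLM.contDiff.comp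
  apply hχ.smooth.comp
  refine ContDiff.sum fun i _ => ContDiff.sum fun j _ => ?_
  fun_prop

lemma b1_supp {m : ℕ} {χ : ℝ → ℝ} (hχ : Prof χ) {y : V m} (hy : b1 m χ y ≠ 0) : ‖y‖ ≤ 1 := by
  have h1 : ∑ i, ∑ j, (y i j) ^ 2 < 1 := by
    by_contra hn
    push Not at hn
    apply hy
    unfold b1
    rw [hχ.supp _ (by rw [abs_of_nonneg (by positivity)]; exact hn)]
    simp
  rw [pi_norm_le_iff_of_nonneg zero_le_one]
  intro i
  rw [pi_norm_le_iff_of_nonneg zero_le_one]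
  intro j
  have h2 : (y i j) ^ 2 ≤ ∑ i, ∑ j, (y i j) ^ 2 := by
    refine le_trans ?_ (Finset.single_le_sum (f := fun i => ∑ j, (y i j) ^ 2)
      (fun i _ => Finset.sum_nonneg fun j _ => sq_nonneg _) (Finset.mem_univ i))
    exact Finset.single_le_sum (f := fun j => (y i j) ^ 2) (fun j _ => sq_nonneg _)
      (Finset.mem_univ j)
  rw [Real.norm_eq_abs, abs_le_one_iff_mul_self_le_one]
  nlinarith

lemma b1_comp {m : ℕ} {χ : ℝ → ℝ} (hχ : Prof χ) : HasCompactSupport (b1 m χ) := by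
  apply HasCompactSupport.intro (isCompact_closedBall (0 : V m) 1)
  intro z hz
  by_contra hn
  apply hz
  rw [mem_closedBall_zero_iff]
  exact b1_supp hχ hn

lemma b1_bound {m : ℕ} {χ : ℝ → ℝ} (hχ : Prof χ) (k : ℕ) : ∃ C : ℝ, 0 < C ∧ ∀ j ≤ k, ∀ y,
    ‖iteratedFDeriv ℝ j (b1 m χ) y‖ ≤ C := by
  have h1 : ∀ j : ℕ, ∃ C : ℝ, 0 < C ∧ ∀ y, ‖iteratedFDeriv ℝ j (b1 m χ) y‖ ≤ C := by
    intro j
    have hc : Continuous (iteratedFDeriv ℝ j (b1 m χ)) :=
      (b1_smooth hχ).continuous_iteratedFDeriv (by exact_mod_cast le_top)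
    have hs : HasCompactSupport (iteratedFDeriv ℝ j (b1 m χ)) :=
      (b1_comp hχ).iteratedFDeriv j
    obtain ⟨C, hC⟩ := hc.bounded_above_of_compact_support hs
    exact ⟨max C 1, by positivity, fun y => (hC y).trans (le_max_left _ _)⟩
  choose C hC hC' using h1
  refine ⟨∑ j ∈ Finset.range (k + 1), C j, Finset.sum_pos (fun j _ => hC j) (by simp), ?_⟩
  intro j hj y
  refine (hC' j y).trans ?_
  exact Finset.single_le_sum (f := C) (fun j _ => (hC j).le) (Finset.mem_range.2 (by omega))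

/-- the unit matrix as a point -/
def oneV (m : ℕ) : V m := fun i j => (1 : Mat m) i j

lemma bi_eq {m : ℕ} (χ : ℝ → ℝ) {δ : ℝ} (hδ : 0 < δ) (z : V m) :
    bi m χ δ (mt z) = b1 m χ (δ⁻¹ • (z - oneV m)) := by
  unfold bi b1
  congr 2
  rw [Finset.sum_div]
  apply Finset.sum_congr rfl
  intro i _
  rw [Finset.sum_div]
  apply Finset.sum_congr rfl
  intro j _
  have h1 : (δ⁻¹ • (z - oneV m)) i j = δ⁻¹ * (z i j - (1 : Mat m) i j) := rfl
  have h2 : (mt z - 1) i j = z i j - (1 : Mat m) i j := rfl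
  rw [h1, h2, mul_pow, inv_pow]
  field_simp

lemma bi_it {m : ℕ} {χ : ℝ → ℝ} (hχ : Prof χ) {δ : ℝ} (hδ : 0 < δ) (j : ℕ) (w : V m) :
    ‖iteratedFDeriv ℝ j (fun z : V m => bi m χ δ (mt z)) w‖ ≤
      ‖iteratedFDeriv ℝ j (b1 m χ) (δ⁻¹ • (w - oneV m))‖ * δ⁻¹ ^ j := by
  have h1 : (fun z : V m => bi m χ δ (mt z)) =
      fun z : V m => ((b1 m χ) ∘ (δ⁻¹ • ContinuousLinearMap.id ℝ (V m))) (z - oneV m) := by
    funext z
    rw [bi_eq χ hδ z]
    rfl
  rw [h1, iteratedFDeriv_comp_sub,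
    (δ⁻¹ • ContinuousLinearMap.id ℝ (V m)).iteratedFDeriv_comp_right (b1_smooth hχ) _
      (by exact_mod_cast le_top)]
  refine (ContinuousMultilinearMap.norm_compContinuousLinearMap_le _ _).trans ?_
  have h2 : ‖(δ⁻¹ • ContinuousLinearMap.id ℝ (V m))‖ ≤ δ⁻¹ := by
    rw [norm_smul, Real.norm_of_nonneg (inv_nonneg.2 hδ.le)]
    exact mul_le_of_le_one_right (inv_nonneg.2 hδ.le) ContinuousLinearMap.norm_id_le
  have h3 : ∏ _i : Fin j, ‖(δ⁻¹ • ContinuousLinearMap.id ℝ (V m))‖ ≤ δ⁻¹ ^ j := by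
    rw [Finset.prod_const, Finset.card_univ, Fintype.card_fin]
    exact pow_le_pow_left₀ (norm_nonneg _) h2 j
  exact mul_le_mul_of_nonneg_left h3 (norm_nonneg _)

lemma oneV_norm {m : ℕ} : ‖oneV m‖ ≤ 1 := by
  rw [pi_norm_le_iff_of_nonneg zero_le_one]
  intro i
  rw [pi_norm_le_iff_of_nonneg zero_le_one]
  intro j
  show ‖(1 : Mat m) i j‖ ≤ 1
  rw [Matrix.one_apply]
  split_ifs <;> simp

end BD

open BD in
/-- the determinant is positive on the support of the bump functions -/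
theorem bi_pos {m : ℕ} {χ : ℝ → ℝ} (hχ : Prof χ) {δ : ℝ} (hδ : 0 < δ) (hδ2 : δ ≤ 1 / 2)
    {z : Mat m} (hz : bi m χ δ z ≠ 0) : 0 < z.det := by
  have h1 := sum_lt hχ hδ hz
  have h2 : z = 1 + (z - 1) := by abel
  rw [h2]
  apply det_pos
  have : δ ^ 2 ≤ 1 := by nlinarith
  linarith

open BD in
/-- the derivatives of the bump functions -/
theorem bi_der (m : ℕ) {χ : ℝ → ℝ} (hχ : Prof χ) (k N : ℕ) : ∃ (C : ℝ) (A : ℕ),
    0 < C ∧ ∀ δ : ℝ, 0 < δ → δ ≤ 1 / 2 → ∀ j : ℕ, j ≤ k → ∀ w : V m,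
      ‖iteratedFDeriv ℝ j (fun z : V m => bi m χ δ (mt z)) w‖ ≤
        C * δ⁻¹ ^ A * (1 + ‖w‖) ^ (-(N : ℝ)) := by
  obtain ⟨C, hC, hb⟩ := b1_bound (m := m) hχ k
  refine ⟨C * 3 ^ N, k, by positivity, ?_⟩
  intro δ hδ hδ2 j hj w
  have h1 := bi_it (m := m) hχ hδ j w
  by_cases hw : ‖w‖ ≤ 2
  · have h2 : δ⁻¹ ^ j ≤ δ⁻¹ ^ k := by
      apply pow_le_pow_right₀ _ hj
      rw [one_le_inv₀ hδ]
      linarith
    have h3 : (1 : ℝ) ≤ 3 ^ N * (1 + ‖w‖) ^ (-(N : ℝ)) := by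
      have h4 : (1 + ‖w‖) ^ (N : ℝ) ≤ 3 ^ N := by
        rw [Real.rpow_natCast]
        exact pow_le_pow_left₀ (by positivity) (by linarith) N
      rw [Real.rpow_neg (by positivity), ← div_eq_mul_inv, le_div_iff₀ (by positivity), one_mul]
      exact h4
    calc ‖iteratedFDeriv ℝ j (fun z : V m => bi m χ δ (mt z)) w‖
        ≤ ‖iteratedFDeriv ℝ j (b1 m χ) (δ⁻¹ • (w - oneV m))‖ * δ⁻¹ ^ j := h1
      _ ≤ C * δ⁻¹ ^ k := mul_le_mul (hb j hj _) h2 (by positivity) hC.le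
      _ = C * δ⁻¹ ^ k * 1 := (mul_one _).symm
      _ ≤ C * δ⁻¹ ^ k * (3 ^ N * (1 + ‖w‖) ^ (-(N : ℝ))) :=
          mul_le_mul_of_nonneg_left h3 (by positivity)
      _ = C * 3 ^ N * δ⁻¹ ^ k * (1 + ‖w‖) ^ (-(N : ℝ)) := by ring
  · have h2 : iteratedFDeriv ℝ j (b1 m χ) (δ⁻¹ • (w - oneV m)) = 0 := by
      by_contra hn
      have h3 : (δ⁻¹ • (w - oneV m)) ∈ tsupport (b1 m χ) :=
        tsupport_iteratedFDeriv_subset j (subset_tsupport _ hn)
      have h4 : tsupport (b1 m χ) ⊆ {y : V m | ‖y‖ ≤ 1} := by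
        apply closure_minimal
        · intro y hy
          exact b1_supp hχ hy
        · exact isClosed_le continuous_norm continuous_const
      have h5 : ‖δ⁻¹ • (w - oneV m)‖ ≤ 1 := h4 h3
      rw [norm_smul, Real.norm_of_nonneg (inv_nonneg.2 hδ.le), inv_mul_le_iff₀ hδ,
        mul_one] at h5
      apply hw
      have h6 : ‖w‖ ≤ ‖w - oneV m‖ + ‖oneV m‖ := by
        have := norm_add_le (w - oneV m) (oneV m)
        rwa [sub_add_cancel] at this
      have := oneV_norm (m := m)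
      linarith
    rw [h2, norm_zero, zero_mul] at h1
    refine h1.trans ?_
    positivity

end Pool.Agent.H84.GA
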