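import Pool.Agent.H34.GU.Targets1

/-!
The Capelli operator and the slices of the zeta integrals.
-/

set_option autoImplicit false

namespace Pool.Agent.H84.GA

open MeasureTheory Pool.Agent.H34.GM Pool.Agent.H34.GZ Pool.Agent.H34.GU

/-- the Euler operator -/
noncomputable def Eul {m : ℕ} (Φ : V m → ℂ) (z : V m) : ℂ := fderiv ℝ Φ z z

/-- the unit matrix `e_(i,j)` -/
def eij {m : ℕ} (i j : Fin m) : V m := Pi.single i (Pi.single j 1)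

/-- the differential operator `det ∂` -/
noncomputable def dD {m : ℕ} (Φ : V m → ℂ) (z : V m) : ℂ :=
  ∑ σ : Equiv.Perm (Fin m), ((Equiv.Perm.sign σ : ℤ) : ℂ) *
    iteratedFDeriv ℝ m Φ z (fun i => eij i (σ i))

/-- the Capelli operator `det z · det ∂` -/
noncomputable def Cap {m : ℕ} (Φ : V m → ℂ) (z : V m) : ℂ := ((mt z).det : ℂ) * dD Φ z

/-- `(-θ - r_1) ... (-θ - r_k)` with the Euler operator `θ` -/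
noncomputable def EuP {m : ℕ} (rs : List ℂ) (Φ : V m → ℂ) : V m → ℂ :=
  rs.foldr (fun r Ψ z => -Eul Ψ z - r * Ψ z) Φ

/-- smooth functions with compact support in `GL_m(R)` -/
structure CG (m : ℕ) (Φ : V m → ℂ) : Prop where
  smooth : ContDiff ℝ ((⊤ : ℕ∞) : WithTop ℕ∞) Φ
  comp : HasCompactSupport Φ
  supp : ∃ c : ℝ, 0 < c ∧ ∀ z, Φ z ≠ 0 → c ≤ |(mt z).det|

/-- the Schwartz functions -/
def Sch {m : ℕ} (Ψ : V m → ℂ) : Prop := ∃ ψ : SchwartzMap (V m) ℂ, ∀ z, ψ z = Ψ z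

/-- the slices of the zeta integral -/
noncomputable def slc {m : ℕ} (Φ f : V m → ℂ) (r : ℝ) : ℂ :=
  ∫ z in Shell m, Φ ((r * (aN (mt z))⁻¹) • z) * f z ∂(hm m)

/-- bounded functions on `GL_m(R)`, invariant under positive scalars -/
structure Bdf (m : ℕ) (f : V m → ℂ) : Prop where
  meas : Measurable f
  bdd : ∃ B : ℝ, ∀ z, (mt z).det ≠ 0 → ‖f z‖ ≤ B
  scal : ∀ r : ℝ, 0 < r → ∀ z, (mt z).det ≠ 0 → f (r • z) = f z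

/-- the infinitesimal character -/
def CapEq (m : ℕ) (mu : Fin m → ℂ) (f : V m → ℂ) : Prop := ∀ Φ, CG m Φ → ∀ s : ℂ,
  ∫ z, Cap Φ z * (((|(mt z).det| : ℝ) : ℂ) ^ (s + ((m : ℂ) - 1) / 2) * f z) ∂(hm m) =
    (-1) ^ m * (∏ j, (s + mu j)) *
      ∫ z, Φ z * (((|(mt z).det| : ℝ) : ℂ) ^ (s + ((m : ℂ) - 1) / 2) * f z) ∂(hm m)

/-- the roots -/
noncomputable def rts {m : ℕ} (mu : Fin m → ℂ) : List ℂ :=
  List.ofFn fun j => (m : ℂ) * ((m : ℂ) - 1) / 2 - m * mu j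

/-- CP3: the radial derivative of a slice -/
def T_CP3 : Prop := ∀ m : ℕ, 1 ≤ m → ∀ f : V m → ℂ, Bdf m f → ∀ Ψ : V m → ℂ, Sch Ψ →
  ∀ r : ℝ, 0 < r → HasDerivAt (slc Ψ f) (slc (Eul Ψ) f r / r) r

/-- CP1: Capelli's identity on the slices, compact support in the group -/
def T_CP1 : Prop := ∀ m : ℕ, 1 ≤ m → ∀ (mu : Fin m → ℂ) (f : V m → ℂ), Bdf m f →
  CapEq m mu f → ∀ Φ : V m → ℂ, CG m Φ → ∀ r : ℝ, 0 < r →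
    slc (EuP (rts mu) Φ) f r = (-1) ^ m * (m : ℂ) ^ m * slc (Cap Φ) f r

/-- CP2: Capelli's identity on the slices, Schwartz functions -/
def T_CP2 : Prop := ∀ m : ℕ, 1 ≤ m → ∀ (mu : Fin m → ℂ) (f : V m → ℂ), Bdf m f →
  CapEq m mu f → ∀ Ψ : V m → ℂ, Sch Ψ → ∀ r : ℝ, 0 < r →
    slc (EuP (rts mu) Ψ) f r = (-1) ^ m * (m : ℂ) ^ m * (r : ℂ) ^ m *
      slc (dD Ψ) (fun z => ((SignType.sign (mt z).det : ℤ) : ℂ) * f z) r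

/-- CP4: the sign may be changed -/
def T_CP4 : Prop := ∀ m : ℕ, 1 ≤ m → ∀ (mu : Fin m → ℂ) (f : V m → ℂ), Bdf m f →
  CapEq m mu f → Bdf m (fun z => ((SignType.sign (mt z).det : ℤ) : ℂ) * f z) ∧
    CapEq m mu (fun z => ((SignType.sign (mt z).det : ℤ) : ℂ) * f z)

/-- quantitative Schwartz functions -/
def SchB {m : ℕ} (K : ℕ) (M : ℝ) (Ψ : V m → ℂ) : Prop := Sch Ψ ∧ ∀ k ≤ K, ∀ z,
  ‖iteratedFDeriv ℝ k Ψ z‖ ≤ M * (1 + ‖z‖) ^ (-(K : ℝ))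

/-- CP5: the operators and the seminorms -/
def T_CP5 : Prop := ∀ (m K : ℕ), 1 ≤ m → ∃ (K' : ℕ) (C : ℝ), 0 ≤ C ∧
  ∀ (Ψ : V m → ℂ) (M : ℝ), 0 ≤ M → SchB K' M Ψ → SchB K (C * M) Ψ ∧
    SchB K (C * M) (Eul Ψ) ∧ SchB K (C * M) (dD Ψ)

/-- CP6: the trivial bound -/
def T_CP6 : Prop := ∀ m : ℕ, 1 ≤ m → ∀ K : ℝ, (m : ℝ) ^ 2 ≤ K → ∃ (K' : ℕ) (C : ℝ), 0 ≤ C ∧
  ∀ (Ψ : V m → ℂ) (M : ℝ), 0 ≤ M → SchB K' M Ψ → ∀ (f : V m → ℂ) (B : ℝ), 0 ≤ B → Bdf m f →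
    (∀ z, (mt z).det ≠ 0 → ‖f z‖ ≤ B) → ∀ r : ℝ, 0 < r →
      ‖slc Ψ f r‖ ≤ C * M * B * (r⁻¹) ^ K

/-- CP7: the bad roots are removed; on `r ≤ 1` the slice is small -/
def T_CP7 : Prop := ∀ (m : ℕ) (b : ℝ), 1 ≤ m → 0 ≤ b → ∃ (K' A : ℕ) (C : ℝ), 0 ≤ C ∧
  ∀ (mu : Fin m → ℂ), ∃ rs : List ℂ, rs.length ≤ m ^ 2 ∧ (∀ x ∈ rs, b < x.re ∧
      ∃ (j : Fin m) (i : ℕ), i < m ∧ x = (m : ℂ) * ((m : ℂ) - 1) / 2 - m * mu j - m * i) ∧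
    ∀ (Ψ : V m → ℂ) (M : ℝ), 0 ≤ M → SchB K' M Ψ → ∀ (f : V m → ℂ) (B : ℝ), 0 ≤ B →
      Bdf m f → CapEq m mu f → (∀ z, (mt z).det ≠ 0 → ‖f z‖ ≤ B) → ∀ r : ℝ, 0 < r → r ≤ 1 →
        ‖slc (EuP rs Ψ) f r‖ ≤ C * M * B * (1 + ∑ j, ‖mu j‖) ^ A *
          (1 + Real.log r⁻¹) ^ (m ^ 2) * (r⁻¹) ^ b

end Pool.Agent.H84.GA
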