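import Pool.Agent.H34.GA.Defs

/-!
Rows FDD, ZAD: Cayley's operator under the Fourier transform and in the zeta integral.
-/

set_option autoImplicit false

namespace Pool.Agent.H84.GA

open MeasureTheory Pool.Agent.H34.GM Pool.Agent.H34.GZ Pool.Agent.H34.GU Pool.Agent.H34.GA

namespace FD

lemma cont_det {m : ℕ} : Continuous fun z : V m => (mt z).det := by
  apply Continuous.matrix_det
  exact continuous_id

lemma comp {m : ℕ} {Φ : Mat m → ℂ} (h : Tg m Φ) : HasCompactSupport fun z : V m => Φ (mt z) := by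
  obtain ⟨c, hc, h1⟩ := h.supp
  apply HasCompactSupport.intro (isCompact_closedBall (0 : V m) c)
  intro z hz
  by_contra hn
  apply hz
  rw [mem_closedBall_zero_iff]
  exact (h1 _ hn).1

/-- a smooth function which vanishes outside the topological support is a test function -/
lemma of {m : ℕ} {Φ Ψ : Mat m → ℂ} (h : TgS m Φ)
    (hs : ContDiff ℝ ((⊤ : ℕ∞) : WithTop ℕ∞) fun z : V m => Ψ (mt z))
    (h0 : ∀ z : V m, z ∉ tsupport (fun z : V m => Φ (mt z)) → Ψ (mt z) = 0) : TgS m Ψ := by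
  obtain ⟨c, hc, h1⟩ := h.supp
  refine ⟨⟨?_, c, hc, ?_⟩, hs⟩
  · exact hs.continuous
  · intro z hz
    have hts : (z : V m) ∈ tsupport (fun z : V m => Φ (mt z)) := by
      by_contra hn
      exact hz (h0 z hn)
    have h2 : tsupport (fun z : V m => Φ (mt z)) ⊆
        {z : V m | ‖z‖ ≤ c ∧ c⁻¹ ≤ |(mt z).det|} := by
      apply closure_minimal
      · intro y hy
        exact h1 _ hy
      · exact (isClosed_le continuous_norm continuous_const).inter
          (isClosed_le continuous_const cont_det.abs)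
    exact h2 hts

/-- iterated derivatives in fixed directions -/
lemma it_smooth {m n : ℕ} {f : V m → ℂ} (hf : ContDiff ℝ ((⊤ : ℕ∞) : WithTop ℕ∞) f)
    (v : Fin n → V m) :
    ContDiff ℝ ((⊤ : ℕ∞) : WithTop ℕ∞) fun z => iteratedFDeriv ℝ n f z v := by
  have h1 : ContDiff ℝ ((⊤ : ℕ∞) : WithTop ℕ∞) (iteratedFDeriv ℝ n f) :=
    hf.iteratedFDeriv_right (by exact_mod_cast (le_top : ((⊤ : ℕ∞) + (n : ℕ∞)) ≤ ⊤))
  exact (ContinuousMultilinearMap.apply ℝ (fun _ : Fin n => V m) ℂ v).contDiff.comp h1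

lemma it_zero {m n : ℕ} {f : V m → ℂ} (v : Fin n → V m) {z : V m} (hz : z ∉ tsupport f) :
    iteratedFDeriv ℝ n f z v = 0 := by
  have h1 : iteratedFDeriv ℝ n f z = 0 := by
    by_contra hn
    exact hz (tsupport_iteratedFDeriv_subset n (subset_tsupport _ hn))
  rw [h1]
  simp

lemma dD_smooth {m : ℕ} {Φ : Mat m → ℂ}
    (hf : ContDiff ℝ ((⊤ : ℕ∞) : WithTop ℕ∞) fun z : V m => Φ (mt z)) :
    ContDiff ℝ ((⊤ : ℕ∞) : WithTop ℕ∞) fun z : V m => dD Φ (mt z) := by
  unfold dD
  refine ContDiff.sum fun σ _ => ?_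
  exact contDiff_const.mul (it_smooth hf _)

lemma dD_zero {m : ℕ} {Φ : Mat m → ℂ} {z : V m}
    (hz : z ∉ tsupport (fun z : V m => Φ (mt z))) : dD Φ (mt z) = 0 := by
  unfold dD
  apply Finset.sum_eq_zero
  intro σ _
  have h1 : iteratedFDeriv ℝ m (fun w : V m => Φ (mt w)) (fun i j => mt z i j)
      (fun i => ev i (σ i)) = 0 := it_zero _ hz
  rw [h1, mul_zero]

lemma dD_tgs {m : ℕ} {Φ : Mat m → ℂ} (h : TgS m Φ) : TgS m (dD Φ) :=
  of h (dD_smooth h.smooth) fun _ hz => dD_zero hz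

lemma dD_pos {m : ℕ} {Φ : Mat m → ℂ} (h : TgS m Φ) (hp : ∀ z, Φ z ≠ 0 → 0 < z.det) :
    ∀ z, dD Φ z ≠ 0 → 0 < z.det := by
  intro z hz
  obtain ⟨c, hc, h1⟩ := h.supp
  have hts : (z : V m) ∈ tsupport (fun z : V m => Φ (mt z)) := by
    by_contra hn
    exact hz (dD_zero hn)
  have h2 : tsupport (fun z : V m => Φ (mt z)) ⊆ {z : V m | c⁻¹ ≤ (mt z).det} := by
    apply closure_minimal
    · intro y hy
      have h3 := (h1 _ hy).2
      rw [abs_of_pos (hp _ hy)] at h3
      exact h3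
    · exact isClosed_le continuous_const cont_det
  exact lt_of_lt_of_le (inv_pos.2 hc) (h2 hts)

/-- the linear form `z ↦ tr (w z)` -/
noncomputable def trL {m : ℕ} (w : Mat m) : V m →L[ℝ] ℝ :=
  LinearMap.toContinuousLinearMap
    { toFun := fun z => (w * mt z).trace
      map_add' := fun x y => by
        have : mt (x + y) = mt x + mt y := rfl
        rw [this, Matrix.mul_add, Matrix.trace_add]
      map_smul' := fun c x => by
        have : mt (c • x) = c • mt x := rfl
        rw [this, Matrix.mul_smul, Matrix.trace_smul]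
        rfl }

lemma trL_apply {m : ℕ} (w : Mat m) (z : V m) : trL w z = (w * mt z).trace := rfl

lemma trL_ev {m : ℕ} (w : Mat m) (i j : Fin m) : trL w (ev i j) = w j i := by
  rw [trL_apply, Matrix.trace]
  simp only [Matrix.diag_apply, Matrix.mul_apply, Matrix.of_apply, ev]
  rw [Finset.sum_eq_single j]
  · rw [Finset.sum_eq_single i]
    · simp
    · intro b _ hb
      simp [hb]
    · intro h; exact absurd (Finset.mem_univ _) h
  · intro b _ hb
    apply Finset.sum_eq_zero
    intro a _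
    simp [hb]
  · intro h; exact absurd (Finset.mem_univ _) h

/-- the exponential -/
noncomputable def EE {m : ℕ} (w : Mat m) (z : V m) : ℂ := ee (-(w * mt z).trace)

lemma EE_fd {m : ℕ} (w : Mat m) (z : V m) :
    HasFDerivAt (EE w) (((-(2 * Real.pi * Complex.I) : ℂ) * EE w z) •
      (Complex.ofRealCLM.comp (trL w))) z := by
  have h1 : HasFDerivAt (fun z : V m => 2 * Real.pi * Complex.I * ((-(trL w z) : ℝ) : ℂ))
      ((2 * Real.pi * Complex.I : ℂ) • (Complex.ofRealCLM.comp (-(trL w)))) z := by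
    have h2 : HasFDerivAt (fun z : V m => ((-(trL w z) : ℝ) : ℂ))
        (Complex.ofRealCLM.comp (-(trL w))) z :=
      (Complex.ofRealCLM.comp (-(trL w))).hasFDerivAt
    exact h2.const_mul _
  have h3 := h1.cexp
  have h4 : (fun z : V m => Complex.exp (2 * Real.pi * Complex.I * ((-(trL w z) : ℝ) : ℂ))) =
      EE w := by
    funext y
    rfl
  rw [h4] at h3
  have h5 : (Complex.exp (2 * Real.pi * Complex.I * ((-(trL w z) : ℝ) : ℂ)) •
      ((2 * Real.pi * Complex.I : ℂ) • (Complex.ofRealCLM.comp (-(trL w))))) =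
      (((-(2 * Real.pi * Complex.I) : ℂ) * EE w z) • (Complex.ofRealCLM.comp (trL w))) := by
    ext v
    show Complex.exp (2 * Real.pi * Complex.I * ((-(trL w z) : ℝ) : ℂ)) *
      ((2 * Real.pi * Complex.I : ℂ) * ((-(trL w v) : ℝ) : ℂ)) =
      (-(2 * Real.pi * Complex.I) : ℂ) * EE w z * ((trL w v : ℝ) : ℂ)
    have h6 : Complex.exp (2 * Real.pi * Complex.I * ((-(trL w z) : ℝ) : ℂ)) = EE w z := rfl
    rw [h6]
    push_cast
    ring
  rw [h5] at h3
  exact h3

lemma EE_cont {m : ℕ} (w : Mat m) : Continuous (EE w) :=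
  continuous_iff_continuousAt.2 fun z => (EE_fd w z).continuousAt

/-- one integration by parts -/
lemma one_step {m : ℕ} (w : Mat m) {g : V m → ℂ}
    (hg : ContDiff ℝ ((⊤ : ℕ∞) : WithTop ℕ∞) g) (hc : HasCompactSupport g) (v : V m) :
    ∫ z, fderiv ℝ g z v * EE w z = (2 * Real.pi * Complex.I * (trL w v : ℝ) : ℂ) *
      ∫ z, g z * EE w z := by
  have hcE := EE_cont w
  have hcg : Continuous fun z => fderiv ℝ g z v := by
    have : Continuous (fderiv ℝ g) := hg.continuous_fderiv (by simp)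
    exact this.clm_apply continuous_const
  have hsg : HasCompactSupport fun z => fderiv ℝ g z v := by
    have h1 := hc.fderiv (𝕜 := ℝ)
    refine HasCompactSupport.intro hc ?_
    intro z hz
    rw [fderiv_of_notMem_tsupport (𝕜 := ℝ) hz]
    rfl
  have hEf : ∀ z, fderiv ℝ (EE w) z v = (-(2 * Real.pi * Complex.I) : ℂ) * EE w z *
      ((trL w v : ℝ) : ℂ) := by
    intro z
    rw [(EE_fd w z).fderiv]
    rfl
  have h1 := integral_mul_fderiv_eq_neg_fderiv_mul_of_integrable (μ := (volume : Measure (V m)))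
    (f := g) (g := EE w) (v := v) (𝕜 := ℂ) ?_ ?_ ?_ ?_ ?_
  · have h2 : ∫ z, fderiv ℝ g z v * EE w z = -∫ z, g z * fderiv ℝ (EE w) z v := by
      rw [h1, neg_neg]
    rw [h2]
    simp only [hEf]
    rw [← integral_neg, ← integral_const_mul]
    apply integral_congr_ae
    filter_upwards with z
    ring
  · exact (hcg.mul hcE).integrable_of_hasCompactSupport hsg.mul_right
  · simp only [hEf]
    have : Continuous fun z => g z * ((-(2 * Real.pi * Complex.I) : ℂ) * EE w z *
      ((trL w v : ℝ) : ℂ)) := hg.continuous.mul ((continuous_const.mul hcE).mul continuous_const)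
    exact this.integrable_of_hasCompactSupport hc.mul_right
  · exact (hg.continuous.mul hcE).integrable_of_hasCompactSupport hc.mul_right
  · intro z _
    exact (hg.differentiable (by simp)).differentiableAt
  · intro z _
    exact (EE_fd w z).differentiableAt

lemma steps {m : ℕ} (w : Mat m) {f : V m → ℂ}
    (hf : ContDiff ℝ ((⊤ : ℕ∞) : WithTop ℕ∞) f) (hc : HasCompactSupport f) (n : ℕ) :
    ∀ v : Fin n → V m, ∫ z, iteratedFDeriv ℝ n f z v * EE w z =
      (∏ i, (2 * Real.pi * Complex.I * (trL w (v i) : ℝ) : ℂ)) * ∫ z, f z * EE w z := by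
  induction n with
  | zero =>
    intro v
    simp
  | succ n ih =>
    intro v
    have h1 : ∀ z, iteratedFDeriv ℝ (n + 1) f z v =
        fderiv ℝ (fun y => iteratedFDeriv ℝ n f y (Fin.tail v)) z (v 0) := by
      intro z
      apply DifferentiableAt.iteratedFDeriv_succ_apply_left'
      have : ContDiff ℝ 1 (iteratedFDeriv ℝ n f) :=
        hf.iteratedFDeriv_right (by exact_mod_cast (le_top : ((1 : ℕ∞) + (n : ℕ∞)) ≤ ⊤))
      exact (this.differentiable (by simp)).differentiableAt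
    simp only [h1]
    rw [one_step w (it_smooth hf (Fin.tail v))
      (HasCompactSupport.intro hc fun z hz => it_zero _ hz) (v 0), ih (Fin.tail v),
      Fin.prod_univ_succ, ← mul_assoc]
    rfl

end FD

open FD in
/-- Cayley's operator under the Fourier transform -/
theorem ft_dD {m : ℕ} {Φ : Mat m → ℂ} (h : TgS m Φ) (w : Mat m) :
    ft (dD Φ) w = (2 * Real.pi * Complex.I) ^ m * ((w.det : ℝ) : ℂ) * ft Φ w := by
  have hcs := FD.comp h.toTg
  have h1 : ∀ σ : Equiv.Perm (Fin m), ∫ z : V m, iteratedFDeriv ℝ m (fun w : V m => Φ (mt w)) z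
      (fun i => ev i (σ i)) * EE w z =
      (2 * Real.pi * Complex.I) ^ m * (∏ i, ((w (σ i) i : ℝ) : ℂ)) * ft Φ w := by
    intro σ
    rw [steps w h.smooth hcs m]
    simp only [trL_ev]
    rw [Finset.prod_mul_distrib, Finset.prod_const, Finset.card_univ, Fintype.card_fin]
    rfl
  have h2 : ft (dD Φ) w = ∑ σ : Equiv.Perm (Fin m), ((Equiv.Perm.sign σ : ℤ) : ℂ) *
      ∫ z : V m, iteratedFDeriv ℝ m (fun w : V m => Φ (mt w)) z
        (fun i => ev i (σ i)) * EE w z := by
    unfold ft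
    have h3 : ∀ z : V m, dD Φ (mt z) * ee (-(w * mt z).trace) =
        ∑ σ : Equiv.Perm (Fin m), ((Equiv.Perm.sign σ : ℤ) : ℂ) *
          (iteratedFDeriv ℝ m (fun w : V m => Φ (mt w)) z (fun i => ev i (σ i)) * EE w z) := by
      intro z
      unfold dD
      rw [Finset.sum_mul]
      apply Finset.sum_congr rfl
      intro σ _
      rw [mul_assoc]
      rfl
    simp only [h3]
    rw [integral_finsetSum]
    · apply Finset.sum_congr rfl
      intro σ _
      rw [integral_const_mul]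
    · intro σ _
      apply Integrable.const_mul
      have hci : Continuous fun z : V m => iteratedFDeriv ℝ m (fun w : V m => Φ (mt w)) z
        (fun i => ev i (σ i)) := (it_smooth h.smooth _).continuous
      exact (hci.mul (EE_cont w)).integrable_of_hasCompactSupport
        (HasCompactSupport.intro hcs fun z hz => it_zero _ hz).mul_right
  rw [h2]
  simp only [h1]
  have h4 : ((w.det : ℝ) : ℂ) = ∑ σ : Equiv.Perm (Fin m), ((Equiv.Perm.sign σ : ℤ) : ℂ) *
      ∏ i, ((w (σ i) i : ℝ) : ℂ) := by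
    rw [Matrix.det_apply']
    push_cast
    rfl
  rw [h4, Finset.mul_sum, Finset.sum_mul]
  apply Finset.sum_congr rfl
  intro σ _
  ring

theorem cf_dD {m : ℕ} {Φ : Mat m → ℂ} (h : TgS m Φ) (w : Mat m) :
    Pool.Agent.H34.GA.cf (dD Φ) w = (-(2 * Real.pi * Complex.I)) ^ m * ((w.det : ℝ) : ℂ) *
      Pool.Agent.H34.GA.cf Φ w := by
  unfold Pool.Agent.H34.GA.cf
  have h1 : (starRingEnd ℂ) (2 * Real.pi * Complex.I) = -(2 * Real.pi * Complex.I) := by
    rw [map_mul, map_mul, Complex.conj_I, Complex.conj_ofReal, Complex.conj_ofNat]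
    ring
  rw [ft_dD h, map_mul, map_mul, Complex.conj_ofReal, map_pow, h1]

theorem it_tgs {m : ℕ} {Φ : Mat m → ℂ} (h : TgS m Φ) (l : ℕ) : TgS m (dD^[l] Φ) := by
  induction l with
  | zero => exact h
  | succ l ih =>
    rw [Function.iterate_succ_apply']
    exact FD.dD_tgs ih

theorem it_pos {m : ℕ} {Φ : Mat m → ℂ} (h : TgS m Φ) (hp : ∀ z, Φ z ≠ 0 → 0 < z.det) (l : ℕ) :
    ∀ z, (dD^[l] Φ) z ≠ 0 → 0 < z.det := by
  induction l with
  | zero => exact hp
  | succ l ih =>
    rw [Function.iterate_succ_apply']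
    exact FD.dD_pos (it_tgs h l) ih

theorem cf_dDl {m : ℕ} {Φ : Mat m → ℂ} (h : TgS m Φ) (l : ℕ) (w : Mat m) :
    Pool.Agent.H34.GA.cf (dD^[l] Φ) w = ((-(2 * Real.pi * Complex.I)) ^ m) ^ l *
      ((w.det : ℝ) : ℂ) ^ l * Pool.Agent.H34.GA.cf Φ w := by
  induction l with
  | zero => simp
  | succ l ih =>
    rw [Function.iterate_succ_apply', cf_dD (it_tgs h l), ih, pow_succ, pow_succ]
    ring

/-- closed sets containing the support -/
theorem it_supp {m : ℕ} {Φ : Mat m → ℂ} (l : ℕ) (S : Set (V m)) (hS : IsClosed S)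
    (h0 : ∀ z : V m, Φ (mt z) ≠ 0 → z ∈ S) : ∀ z : V m, (dD^[l] Φ) (mt z) ≠ 0 → z ∈ S := by
  induction l with
  | zero => exact h0
  | succ l ih =>
    intro z hz
    rw [Function.iterate_succ_apply'] at hz
    have hts : z ∈ tsupport (fun z : V m => (dD^[l] Φ) (mt z)) := by
      by_contra hn
      exact hz (FD.dD_zero hn)
    exact closure_minimal (fun y hy => ih y hy) hS hts

/-- one step in the zeta integral -/
theorem za_dD {m : ℕ} {mu : Fin m → ℂ} {c : Mat m → ℂ} (hc : Ifc m mu c)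
    {Φ : Mat m → ℂ} (h : TgS m Φ) (hp : ∀ z, Φ z ≠ 0 → 0 < z.det) (s : ℂ) :
    ZA (dD Φ) c s = (-1) ^ m * (∏ j, (s - 1 - mu j)) * ZA Φ c (s - 1) := by
  have h1 := hc Φ h (s - 1)
  unfold ZA
  rw [← h1]
  apply integral_congr_ae
  filter_upwards with z
  by_cases hz : dD Φ (mt z) = 0
  · rw [hz]; simp
  · have hd : 0 < (mt z).det := FD.dD_pos h hp _ hz
    have h2 : ((((mt z).det : ℝ)) : ℂ) ≠ 0 := by exact_mod_cast hd.ne'
    rw [abs_of_pos hd]
    have h3 : (((mt z).det : ℝ) : ℂ) ^ (s + ((m : ℂ) - 1) / 2) = (((mt z).det : ℝ) : ℂ) *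
        (((mt z).det : ℝ) : ℂ) ^ (s - 1 + ((m : ℂ) - 1) / 2) := by
      have h4 : s + ((m : ℂ) - 1) / 2 = 1 + (s - 1 + ((m : ℂ) - 1) / 2) := by ring
      rw [h4, Complex.cpow_add _ _ h2, Complex.cpow_one]
    rw [h3]
    ring

theorem za_dDl {m : ℕ} {mu : Fin m → ℂ} {c : Mat m → ℂ} (hc : Ifc m mu c)
    {Φ : Mat m → ℂ} (h : TgS m Φ) (hp : ∀ z, Φ z ≠ 0 → 0 < z.det) (l : ℕ) : ∀ s : ℂ,
    ZA (dD^[l] Φ) c s = (-1) ^ (m * l) *
      (∏ i ∈ Finset.range l, ∏ j, (s - ((i : ℂ) + 1) - mu j)) * ZA Φ c (s - l) := by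
  induction l with
  | zero => intro s; simp
  | succ l ih =>
    intro s
    rw [Function.iterate_succ_apply', za_dD hc (it_tgs h l) (it_pos h hp l), ih (s - 1),
      Finset.prod_range_succ', Nat.mul_succ, pow_add]
    have h1 : ∀ i : ℕ, (∏ j, (s - 1 - ((i : ℂ) + 1) - mu j)) =
        ∏ j, (s - (((i + 1 : ℕ) : ℂ) + 1) - mu j) := by
      intro i
      apply Finset.prod_congr rfl
      intro j _
      push_cast; ring
    have h2 : s - 1 - (l : ℂ) = s - ((l + 1 : ℕ) : ℂ) := by push_cast; ring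
    rw [Finset.prod_congr rfl fun i _ => h1 i, h2]
    have h3 : (∏ j, (s - (((0 : ℕ) : ℂ) + 1) - mu j)) = ∏ j, (s - 1 - mu j) := by
      apply Finset.prod_congr rfl
      intro j _
      push_cast; ring
    rw [h3]
    ring

end Pool.Agent.H84.GA
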