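import Mathlib

/-!
Uniqueness of the Mellin transform.
-/

set_option autoImplicit false

namespace Pool.Agent.H84.GA

open MeasureTheory

theorem mu_zero (f : ℝ → ℂ) (σ : ℝ) {x : ℝ} (hx : 0 < x) (hf : MellinConvergent f σ)
    (h0 : ∀ t : ℝ, mellin f (σ + t * Complex.I) = 0) (hc : ContinuousAt f x) : f x = 0 := by
  have h1 : Complex.VerticalIntegrable (mellin f) σ := by
    unfold Complex.VerticalIntegrable
    simp only [h0]
    exact integrable_zero _ _ _
  have h2 := mellinInv_mellin_eq σ f hx hf h1 hc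
  rw [← h2]
  unfold mellinInv
  simp [h0]

/-- continuous functions with compact support in `(0, ∞)` -/
theorem mu_cc (f g : ℝ → ℂ) (a b : ℝ) (ha : 0 < a) (hfc : ContinuousOn f (Set.Ioi 0))
    (hgc : ContinuousOn g (Set.Ioi 0)) (hf0 : ∀ x, 0 < x → x ∉ Set.Icc a b → f x = 0)
    (hg0 : ∀ x, 0 < x → x ∉ Set.Icc a b → g x = 0)
    (h : ∀ s : ℂ, ∫ x in Set.Ioi (0 : ℝ), (x : ℂ) ^ (s - 1) * f x =
      ∫ x in Set.Ioi (0 : ℝ), (x : ℂ) ^ (s - 1) * g x) :
    ∀ x, 0 < x → f x = g x := by
  have conv : ∀ (f : ℝ → ℂ), ContinuousOn f (Set.Ioi 0) →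
      (∀ x, 0 < x → x ∉ Set.Icc a b → f x = 0) → ∀ s : ℂ,
      IntegrableOn (fun x : ℝ => (x : ℂ) ^ (s - 1) * f x) (Set.Ioi 0) := by
    intro f hc h0 s
    have h1 : IntegrableOn (fun x : ℝ => (x : ℂ) ^ (s - 1) * f x) (Set.Icc a b) := by
      apply ContinuousOn.integrableOn_Icc
      intro x hx
      have hx0 : 0 < x := lt_of_lt_of_le ha hx.1
      apply ContinuousWithinAt.mul
      · apply ContinuousAt.continuousWithinAt
        apply ContinuousAt.cpow
        · exact Complex.continuous_ofReal.continuousAt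
        · exact continuousAt_const
        · left; exact_mod_cast hx0
      · exact (hc x hx0).mono fun y hy => lt_of_lt_of_le ha hy.1
    have h2 : IntegrableOn (fun x : ℝ => (x : ℂ) ^ (s - 1) * f x)
        (Set.Icc a b ∪ (Set.Ioi 0 \ Set.Icc a b)) := by
      refine h1.union ?_
      have h3 : IntegrableOn (fun _ : ℝ => (0 : ℂ)) (Set.Ioi (0 : ℝ) \ Set.Icc a b) :=
        integrableOn_zero
      refine h3.congr_fun ?_ (measurableSet_Ioi.diff measurableSet_Icc)
      intro x hx
      simp only [h0 x hx.1 hx.2, mul_zero]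
    refine h2.mono_set ?_
    intro x hx
    by_cases hxi : x ∈ Set.Icc a b
    · exact Or.inl hxi
    · exact Or.inr ⟨hx, hxi⟩
  intro x hx
  have e1 : (fun y => f y - g y) x = 0 := by
    apply mu_zero (fun y => f y - g y) 0 hx
    · unfold MellinConvergent
      have := (conv f hfc hf0 ((0 : ℝ) : ℂ)).sub (conv g hgc hg0 ((0 : ℝ) : ℂ))
      refine this.congr_fun ?_ measurableSet_Ioi
      intro y _
      simp only [smul_eq_mul, Pi.sub_apply]
      ring
    · intro t
      unfold mellin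
      have h1 := h ((0 : ℝ) + t * Complex.I)
      have h2 : ∫ y in Set.Ioi (0 : ℝ), (y : ℂ) ^ (((0 : ℝ) : ℂ) + t * Complex.I - 1) •
          (f y - g y) =
          (∫ y in Set.Ioi (0 : ℝ), (y : ℂ) ^ (((0 : ℝ) : ℂ) + t * Complex.I - 1) * f y) -
          ∫ y in Set.Ioi (0 : ℝ), (y : ℂ) ^ (((0 : ℝ) : ℂ) + t * Complex.I - 1) * g y := by
        rw [← integral_sub (conv f hfc hf0 _) (conv g hgc hg0 _)]
        apply integral_congr_ae
        filter_upwards with y
        rw [smul_eq_mul]; ring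
      rw [h2, h1, sub_self]
    · have h1 := (hfc x hx).sub (hgc x hx)
      exact h1.continuousAt (Ioi_mem_nhds hx)
  exact sub_eq_zero.1 e1

end Pool.Agent.H84.GA
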