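import Mathlib

/-!
First order differential equations: `(θ - r_1) ... (θ - r_k) f = g`, `θ = ρ d/dρ`.
-/

set_option autoImplicit false

namespace Pool.Agent.H84.GA

/-- one step -/
theorem od_one (f g : ℝ → ℂ) (r : ℂ) (b G : ℝ) (j : ℕ) (hr : r.re ≤ b) (hG : 0 ≤ G)
    (hf : ∀ ρ : ℝ, 1 ≤ ρ → HasDerivAt f ((r * f ρ + g ρ) / ρ) ρ)
    (hg : ∀ ρ : ℝ, 1 ≤ ρ → ‖g ρ‖ ≤ G * (1 + Real.log ρ) ^ j * ρ ^ b) :
    ∀ ρ : ℝ, 1 ≤ ρ → ‖f ρ‖ ≤ (‖f 1‖ + G) * (1 + Real.log ρ) ^ (j + 1) * ρ ^ b := by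
  intro ρ hρ
  have hρ0 : 0 < ρ := by linarith
  -- the integrating factor
  set h : ℝ → ℂ := fun t => f t * (t : ℂ) ^ (-r) with hh
  have hd : ∀ t : ℝ, 1 ≤ t → HasDerivAt h (g t * (t : ℂ) ^ (-r - 1)) t := by
    intro t ht
    have ht0 : 0 < t := by linarith
    have ht1 : (t : ℂ) ≠ 0 := by exact_mod_cast ht0.ne'
    have h1 : HasDerivAt (fun y : ℝ => (y : ℂ) ^ (-r)) (-r * (t : ℂ) ^ (-r - 1)) t := by
      by_cases hr0 : r = 0
      · subst hr0
        simp only [neg_zero, Complex.cpow_zero, zero_sub, zero_mul]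
        exact hasDerivAt_const _ _
      · exact hasDerivAt_ofReal_cpow_const ht0.ne' (neg_ne_zero.2 hr0)
    have h2 := (hf t ht).mul h1
    have h3 : (r * f t + g t) / (t : ℂ) * (t : ℂ) ^ (-r) + f t * (-r * (t : ℂ) ^ (-r - 1)) =
        g t * (t : ℂ) ^ (-r - 1) := by
      rw [Complex.cpow_sub _ _ ht1, Complex.cpow_one]
      field_simp
      ring
    rw [← h3]
    exact h2
  -- the boundary function
  have hB : ∀ ⦃x : ℝ⦄, x ∈ Set.Icc (1 : ℝ) ρ →
      ‖h x‖ ≤ ‖f 1‖ + G * (x ^ (b - r.re) * (1 + Real.log x) ^ (j + 1)) := by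
    refine image_norm_le_of_norm_deriv_right_le_deriv_boundary' (f := h)
      (f' := fun t => g t * (t : ℂ) ^ (-r - 1)) (a := 1) (b := ρ)
      (B := fun t => ‖f 1‖ + G * (t ^ (b - r.re) * (1 + Real.log t) ^ (j + 1)))
      (B' := fun t => G * ((b - r.re) * t ^ (b - r.re - 1) * (1 + Real.log t) ^ (j + 1) +
        t ^ (b - r.re) * (((j + 1 : ℕ) : ℝ) * (1 + Real.log t) ^ j * t⁻¹)))
      (fun t ht => (hd t ht.1).continuousAt.continuousWithinAt)
      (fun t ht => (hd t ht.1).hasDerivWithinAt) ?_ ?_ ?_ ?_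
    · simp only [hh]
      rw [norm_mul, Complex.norm_cpow_eq_rpow_re_of_pos one_pos, Real.one_rpow, Real.one_rpow,
        Real.log_one]
      simp only [mul_one, add_zero, one_pow]
      linarith
    · intro t ht
      have ht0 : 0 < t := lt_of_lt_of_le one_pos ht.1
      apply ContinuousAt.continuousWithinAt
      have h1 : ContinuousAt (fun t : ℝ => t ^ (b - r.re)) t :=
        Real.continuousAt_rpow_const t _ (Or.inl ht0.ne')
      have h2 : ContinuousAt Real.log t := Real.continuousAt_log ht0.ne'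
      exact continuousAt_const.add (continuousAt_const.mul (h1.mul ((continuousAt_const.add h2).pow _)))
    · intro t ht
      have ht0 : 0 < t := lt_of_lt_of_le one_pos ht.1
      have h1 : HasDerivAt (fun t : ℝ => t ^ (b - r.re)) ((b - r.re) * t ^ (b - r.re - 1)) t :=
        Real.hasDerivAt_rpow_const (Or.inl ht0.ne')
      have h2 : HasDerivAt (fun t : ℝ => (1 + Real.log t) ^ (j + 1))
          (((j + 1 : ℕ) : ℝ) * (1 + Real.log t) ^ j * t⁻¹) t := by
        have := ((Real.hasDerivAt_log ht0.ne').const_add 1).fun_pow (j + 1)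
        simpa using this
      have h3 := ((h1.mul h2).const_mul G).const_add ‖f 1‖
      exact h3.hasDerivWithinAt
    · intro t ht
      have ht0 : 0 < t := lt_of_lt_of_le one_pos ht.1
      have hl : 0 ≤ Real.log t := Real.log_nonneg ht.1
      rw [norm_mul, Complex.norm_cpow_eq_rpow_re_of_pos ht0]
      have e1 : (-r - 1).re = -r.re - 1 := by simp
      rw [e1]
      have h1 := hg t ht.1
      have h2 : 0 ≤ t ^ (-r.re - 1) := Real.rpow_nonneg ht0.le _
      calc ‖g t‖ * t ^ (-r.re - 1) ≤ G * (1 + Real.log t) ^ j * t ^ b * t ^ (-r.re - 1) :=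
            mul_le_mul_of_nonneg_right h1 h2
        _ = G * (t ^ (b - r.re) * (1 * (1 + Real.log t) ^ j * t⁻¹)) := by
            have e2 : t ^ (b - r.re) * t⁻¹ = t ^ b * t ^ (-r.re - 1) := by
              rw [← Real.rpow_neg_one t, ← Real.rpow_add ht0, ← Real.rpow_add ht0]
              congr 1; ring
            linear_combination (-G * (1 + Real.log t) ^ j) * e2
        _ ≤ _ := by
            apply mul_le_mul_of_nonneg_left _ hG
            have h3 : 0 ≤ (b - r.re) * t ^ (b - r.re - 1) * (1 + Real.log t) ^ (j + 1) :=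
              mul_nonneg (mul_nonneg (by linarith) (Real.rpow_nonneg ht0.le _))
                (pow_nonneg (by linarith) _)
            have h4 : t ^ (b - r.re) * (1 * (1 + Real.log t) ^ j * t⁻¹) ≤
                t ^ (b - r.re) * (((j + 1 : ℕ) : ℝ) * (1 + Real.log t) ^ j * t⁻¹) := by
              apply mul_le_mul_of_nonneg_left _ (Real.rpow_nonneg ht0.le _)
              apply mul_le_mul_of_nonneg_right _ (inv_nonneg.2 ht0.le)
              apply mul_le_mul_of_nonneg_right _ (pow_nonneg (by linarith) _)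
              exact_mod_cast Nat.succ_le_succ (Nat.zero_le j)
            linarith
  have h1 := hB (x := ρ) ⟨hρ, le_rfl⟩
  simp only [hh] at h1
  rw [norm_mul, Complex.norm_cpow_eq_rpow_re_of_pos hρ0, Complex.neg_re] at h1
  have h2 : ‖f ρ‖ = ‖f ρ‖ * ρ ^ (-r.re) * ρ ^ r.re := by
    rw [mul_assoc, ← Real.rpow_add hρ0]
    simp
  have hl : 0 ≤ Real.log ρ := Real.log_nonneg hρ
  have h3 : (1 : ℝ) ≤ (1 + Real.log ρ) ^ (j + 1) := one_le_pow₀ (by linarith)
  have h4 : ρ ^ r.re ≤ ρ ^ b := Real.rpow_le_rpow_of_exponent_le hρ hr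
  calc ‖f ρ‖ = ‖f ρ‖ * ρ ^ (-r.re) * ρ ^ r.re := h2
    _ ≤ (‖f 1‖ + G * (ρ ^ (b - r.re) * (1 + Real.log ρ) ^ (j + 1))) * ρ ^ r.re :=
        mul_le_mul_of_nonneg_right h1 (Real.rpow_nonneg hρ0.le _)
    _ = ‖f 1‖ * ρ ^ r.re + G * (1 + Real.log ρ) ^ (j + 1) * (ρ ^ (b - r.re) * ρ ^ r.re) := by
        ring
    _ = ‖f 1‖ * ρ ^ r.re + G * (1 + Real.log ρ) ^ (j + 1) * ρ ^ b := by
        rw [← Real.rpow_add hρ0, sub_add_cancel]
    _ ≤ ‖f 1‖ * ((1 + Real.log ρ) ^ (j + 1) * ρ ^ b) +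
          G * (1 + Real.log ρ) ^ (j + 1) * ρ ^ b := by
        have h5 : ρ ^ r.re ≤ (1 + Real.log ρ) ^ (j + 1) * ρ ^ b :=
          h4.trans (le_mul_of_one_le_left (Real.rpow_nonneg hρ0.le _) h3)
        have := mul_le_mul_of_nonneg_left h5 (norm_nonneg (f 1))
        linarith
    _ = (‖f 1‖ + G) * (1 + Real.log ρ) ^ (j + 1) * ρ ^ b := by ring

/-- all steps: `f (j+1) = (θ - r_j) f j` -/
theorem od_all (k : ℕ) : ∀ (f : ℕ → ℝ → ℂ) (r : ℕ → ℂ) (b G M : ℝ), (∀ j < k, (r j).re ≤ b) →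
    0 ≤ G → 0 ≤ M →
    (∀ j < k, ∀ ρ : ℝ, 1 ≤ ρ → HasDerivAt (f j) ((r j * f j ρ + f (j + 1) ρ) / ρ) ρ) →
    (∀ j < k, ‖f j 1‖ ≤ M) →
    (∀ ρ : ℝ, 1 ≤ ρ → ‖f k ρ‖ ≤ G * ρ ^ b) →
    ∀ ρ : ℝ, 1 ≤ ρ → ‖f 0 ρ‖ ≤ (k * M + G) * (1 + Real.log ρ) ^ k * ρ ^ b := by
  intro f r b G M hr hG hM hf h1 hk
  -- from the top down
  have key : ∀ i ≤ k, ∀ ρ : ℝ, 1 ≤ ρ →
      ‖f (k - i) ρ‖ ≤ (i * M + G) * (1 + Real.log ρ) ^ i * ρ ^ b := by
    intro i
    induction i with
    | zero =>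
      intro _ ρ hρ
      simpa using hk ρ hρ
    | succ i ih =>
      intro hi ρ hρ
      have e1 : k - (i + 1) + 1 = k - i := by omega
      have hlt : k - (i + 1) < k := by omega
      have h2 := od_one (f (k - (i + 1))) (f (k - i)) (r (k - (i + 1))) b (i * M + G) i
        (hr _ hlt) (by positivity) (by
          intro ρ hρ
          have := hf _ hlt ρ hρ
          rw [e1] at this
          exact this) (ih (by omega)) ρ hρ
      refine h2.trans ?_
      have hl : 0 ≤ Real.log ρ := Real.log_nonneg hρ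
      have h3 : 0 ≤ (1 + Real.log ρ) ^ (i + 1) * ρ ^ b :=
        mul_nonneg (pow_nonneg (by linarith) _) (Real.rpow_nonneg (by linarith) _)
      have h4 := h1 _ hlt
      rw [mul_assoc, mul_assoc]
      apply mul_le_mul_of_nonneg_right _ h3
      push_cast
      linarith
  intro ρ hρ
  have := key k le_rfl ρ hρ
  simpa using this

end Pool.Agent.H84.GA
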